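import Pool.Agent.Lib.MP_1aae89_al.W3.SpecA

/-!
# Module DUA: duality for `P / P₁`, `P₁ = {x : x^(p^(b-1)) ∈ P^(p^b)}`
-/

set_option autoImplicit false

namespace Pool.Agent.Lib.MP_1aae89_al.W3

open Pool.Agent.Lib.MP_1aae89_al Pool.Agent.Lib.MP_1aae89_al.BF Finset
open Pool.Agent.Lib.MP_1aae89_al.W (GC LD nR)
open Pool.Agent.Lib.MP1aae89 (Pex)

/-- the subgroup `P₁` -/
def DUA.sub (p b : ℕ) (P : Type) [CommGroup P] : Subgroup P :=
  (powMonoidHom (p ^ b) : P →* P).range.comap (powMonoidHom (p ^ (b - 1)) : P →* P)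

theorem DUA.mem_sub {p b : ℕ} {P : Type} [CommGroup P] {x : P} :
    x ∈ DUA.sub p b P ↔ ∃ v : P, x ^ p ^ (b - 1) = v ^ p ^ b := by
  unfold DUA.sub
  rw [Subgroup.mem_comap, MonoidHom.mem_range]
  constructor
  · rintro ⟨v, hv⟩
    exact ⟨v, hv.symm⟩
  · rintro ⟨v, hv⟩
    exact ⟨v, hv.symm⟩

theorem DUA.mem_An {p b : ℕ} {P : Type} [Group P] [Finite P] {α : Lin P} :
    α ∈ An p b P ↔ ∀ x : P, (∃ v : P, x ^ p ^ (b - 1) = v ^ p ^ b) → α x = 1 := by
  classical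
  unfold An
  rw [mem_filter]
  exact and_iff_right (mem_univ _)

/-- the index of `P₁` -/
theorem DUA.index {p b : ℕ} (hb : 1 ≤ b) (P : Type) [CommGroup P] [Finite P] :
    (DUA.sub p b P).index * Nat.card {z : P // ∃ x : P, x ^ p ^ b = z} =
      Nat.card {z : P // ∃ x : P, x ^ p ^ (b - 1) = z} := by
  set f : P →* P := powMonoidHom (p ^ (b - 1)) with hf
  set g : P →* P := powMonoidHom (p ^ b) with hg
  have h1 : (DUA.sub p b P).index = g.range.relIndex f.range := by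
    unfold DUA.sub
    exact Subgroup.index_comap _ _
  have hle : g.range ≤ f.range := by
    rintro z ⟨x, rfl⟩
    refine ⟨x ^ p, ?_⟩
    show (x ^ p) ^ p ^ (b - 1) = x ^ p ^ b
    rw [← pow_mul, ← pow_succ', Nat.sub_add_cancel hb]
  have h2 := Subgroup.relIndex_mul_relIndex (⊥ : Subgroup P) g.range f.range bot_le hle
  rw [Subgroup.relIndex_bot_left, Subgroup.relIndex_bot_left] at h2
  have h3 : Nat.card g.range = Nat.card {z : P // ∃ x : P, x ^ p ^ b = z} := rfl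
  have h4 : Nat.card f.range = Nat.card {z : P // ∃ x : P, x ^ p ^ (b - 1) = z} := rfl
  rw [h1, ← h3, ← h4, ← h2, mul_comm]

/-- the characters of `P / P₁` -/
noncomputable def DUA.equiv (p b : ℕ) (P : Type) [CommGroup P] [Finite P] :
    Lin (P ⧸ DUA.sub p b P) ≃ {α : Lin P // α ∈ An p b P} where
  toFun β := ⟨(MonoidHom.comp β (QuotientGroup.mk' (DUA.sub p b P)) : P →* ℂˣ), by
    rw [DUA.mem_An]
    intro x hx
    show β (QuotientGroup.mk' (DUA.sub p b P) x) = 1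
    rw [QuotientGroup.mk'_apply, (QuotientGroup.eq_one_iff x).2 (DUA.mem_sub.2 hx), map_one]⟩
  invFun α := QuotientGroup.lift (DUA.sub p b P) (α.1 : P →* ℂˣ)
    fun x hx => DUA.mem_An.1 α.2 x (DUA.mem_sub.1 hx)
  left_inv β := by
    apply Lin.ext
    intro x
    obtain ⟨x, rfl⟩ := QuotientGroup.mk_surjective x
    rfl
  right_inv α := by
    apply Subtype.ext
    apply Lin.ext
    intro x
    rfl

theorem specDUA : SpecDUA := by
  classical
  intro p b hp hb P _ _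
  have := Fintype.ofFinite (P ⧸ DUA.sub p b P)
  have hsum : ∀ x : P, ∑ α ∈ An p b P, ((α x : ℂˣ) : ℂ) =
      if (∃ v : P, x ^ p ^ (b - 1) = v ^ p ^ b) then
        (Fintype.card (P ⧸ DUA.sub p b P) : ℂ) else 0 := by
    intro x
    have h1 : ∑ α ∈ An p b P, ((α x : ℂˣ) : ℂ) =
        ∑ β : Lin (P ⧸ DUA.sub p b P), ((β (x : P ⧸ DUA.sub p b P) : ℂˣ) : ℂ) := by
      rw [← Finset.sum_coe_sort (An p b P) (fun α : Lin P => ((α x : ℂˣ) : ℂ))]
      exact (Fintype.sum_equiv (DUA.equiv p b P) _ _ fun β => rfl).symm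
    rw [h1, W.SCAM.sum_lin]
    by_cases h : ∃ v : P, x ^ p ^ (b - 1) = v ^ p ^ b
    · rw [if_pos h, if_pos ((QuotientGroup.eq_one_iff x).2 (DUA.mem_sub.2 h))]
    · rw [if_neg h, if_neg (fun h' => h (DUA.mem_sub.1 ((QuotientGroup.eq_one_iff x).1 h')))]
  have hcard : (An p b P).card = Fintype.card (P ⧸ DUA.sub p b P) := by
    have h1 := hsum 1
    rw [if_pos ⟨1, by rw [one_pow, one_pow]⟩] at h1
    have h2 : ∑ α ∈ An p b P, ((α (1 : P) : ℂˣ) : ℂ) = ((An p b P).card : ℂ) := by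
      rw [sum_congr rfl fun α _ => by rw [map_one, Units.val_one], sum_const, nsmul_eq_mul, mul_one]
    rw [h2] at h1
    exact_mod_cast h1
  refine ⟨?_, ?_⟩
  · intro x
    rw [hsum x, hcard]
  · rw [hcard, ← Nat.card_eq_fintype_card]
    exact DUA.index hb P

end Pool.Agent.Lib.MP_1aae89_al.W3
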