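import Pool.Agent.Lib.MP_1aae89_al.W3.Defs

/-!
# Specifications, part A: the main inequality for groups with abelian Sylow subgroups

THEOREM W2 (all modules of this file). `X` finite, `P` an abelian Sylow `p`-subgroup of `X`, `b ≥ 2`,
`q = p^(b-1)`, `χ` an irreducible character of `X` of degree prime to `p` and of level at most `b`
(`FX p s0 b χ`), `K : X → ℂˣ` a homomorphism with `K^p = 1` such that
`χ(y^(1 + s0 q)) ≠ K(y) χ(y)` for some `y`. If the criterion `Crt p b P` holds then `p` divides the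
number `dl q (χ|P) (K|P)` of linear constituents `η` of `χ|P` with `η^q = K|P`.

NOTATION. `L` is a multiple of `|X|`, `s0 ≡ 1` modulo the `p`-part `p^N` of `L`, `s0 ≡ 0` modulo the
`p'`-part (`Pex p L s0`), so `y^s0` is the `p`-part of `y`; `κ_i = 1 + s0 q i`, `χ_i(y) = χ(y^κ_i)`.
`avK = (1/p) ∑_{i<p} K^(-i) χ_i` (`χ_i` depends only on `i` modulo `p` by `FX`).

PROOF. (NR2) The `K^(-i) χ_i`, `i < p`, are `p` different irreducible characters, so the mean value of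
`|avK|²` on `X` is `1/p`. (NV2) If `p` does not divide `dl`, then for each `u ∈ P` there is `x ∈ P` with
`avK(u x^q) ≠ 0`: the sum of `avK(u x^q) K(x)⁻¹` over `x ∈ P` is that of `χ(u x^q) K(x)⁻¹`, which is
`|P|` times the value at `u` of a character of `P` of degree `dl`. (IN2) For `u ∈ P` let `Sec(u)` be the
set of `y ∈ X` whose `p`-part is conjugate to an element of `u P₁`,
`P₁ = {x ∈ P : x^q ∈ P^(pq)}`; then `BB u = (|P : P₁|/|X|) ∑_{y ∈ Sec(u)} |avK y|²` is an algebraic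
integer. (GL2, CY2, PO2) The Galois conjugates of `BB u` are the `BB (u^k)`, and they are positive by
(NV2), because `u x^q ∈ Sec(u)`; so their mean value is at least `1` (`W.SpecAMG`). (UP2) The sections of
pairwise inequivalent elements are disjoint, so the sum of their `BB` is at most `|P : P₁|/p`.
(FN2) Hence there are at most `|P : P₁|/p` classes, which contradicts `Crt`.
-/

set_option autoImplicit false

namespace Pool.Agent.Lib.MP_1aae89_al.W3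

open Pool.Agent.Lib.MP_1aae89_al Pool.Agent.Lib.MP_1aae89_al.BF Finset
open Pool.Agent.Lib.MP_1aae89_al.W (GC LD nR)
open Pool.Agent.Lib.MP1aae89 (Pex)

/-! ## Exponents -/

/-- PRM. Facts on exponents (`pow_s0_one`, `pow_s0_self` in `W/INT.lean`, `pp_pow` in `Grp2.lean`).
(1) `1 + s0 q i` is prime to `L` (`p ∣ q`, `ordCompl[p] L ∣ s0`).
(2) `y^s0 = y` for `p`-elements. (3) `y^s0 = 1` for `p'`-elements. (4) `y^s0` is a `p`-element.
(5) If `A` is prime to `p` then `A + s0 p^b t' ≡ A (1 + s0 p^b t)` modulo `L` for some `t`: `t` with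
`A t ≡ t'` modulo `ordProj[p] L` (both sides are `≡ A` modulo `ordCompl[p] L`).
(6) independence of `L`: `y^s0` is the same for two choices of `(L, s0)`, `y^L = 1 = y^L'`
(`s0 ≡ s0'` modulo the order `o` of `y`: modulo its `p`-part both are `≡ 1`, modulo its `p'`-part
both are `≡ 0`). -/
def SpecPRM : Prop := ∀ (p : ℕ), p.Prime → ∀ (L s0 : ℕ), L ≠ 0 → Pex p L s0 →
  (∀ a i : ℕ, 1 ≤ a → (1 + s0 * p ^ a * i).Coprime L) ∧
  (∀ {X : Type} [Group X] (y : X) (k : ℕ), y ^ L = 1 → y ^ p ^ k = 1 → y ^ s0 = y) ∧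
  (∀ {X : Type} [Group X] (y : X), y ^ L = 1 → (orderOf y).Coprime p → y ^ s0 = 1) ∧
  (∀ {X : Type} [Group X] (y : X), y ^ L = 1 → (y ^ s0) ^ p ^ L.factorization p = 1) ∧
  (∀ A b t' : ℕ, A.Coprime p →
    ∃ t : ℕ, A + s0 * p ^ b * t' ≡ A * (1 + s0 * p ^ b * t) [MOD L]) ∧
  (∀ (L' s0' : ℕ), L' ≠ 0 → Pex p L' s0' → ∀ {X : Type} [Group X] (y : X), y ^ L = 1 →
    y ^ L' = 1 → y ^ s0 = y ^ s0')

/-- PWL. If `χ` has level at most `b` and `χ(y^(1 + s0 q)) = χ(y)` for all `y`, `q = p^(b-1)`, `b ≥ 2`,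
then `χ` has level at most `b - 1`.
PROOF. Induction on `t` for `χ(y^(1 + s0 q t)) = χ(y)`. Put `A = 1 + s0 q (t+1)`, prime to `p`. Then
`(1 + s0 q)(1 + s0 q t) = A + s0 p^b t'` with `t' = s0 p^(b-2) t` (`q² = p^b p^(b-2)`), so by PRM (5) it
is `≡ A (1 + s0 p^b t'')` modulo `L`, and
`χ(y) = χ(y^(1 + s0 q t)) = χ(y^((1 + s0 q t)(1 + s0 q))) = χ((y^A)^(1 + s0 p^b t'')) = χ(y^A)`. -/
def SpecPWL : Prop := ∀ (p : ℕ), p.Prime → ∀ (L s0 : ℕ), L ≠ 0 → Pex p L s0 → ∀ (b : ℕ), 2 ≤ b →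
  ∀ {X : Type} [Group X] (χ : X → ℂ), (∀ y : X, y ^ L = 1) → FX p s0 b χ →
  (∀ y, χ (y ^ (1 + s0 * p ^ (b - 1))) = χ y) → FX p s0 (b - 1) χ

/-! ## The norm -/

/-- CJ2. `avK y⁻¹` is the complex conjugate of `avK y`.
PROOF. `χ(g⁻¹)` is the conjugate of `χ(g)` (`are_conj` in `W/ARE.lean`); `K(y)^p = 1`, so `K(y⁻¹)` is the
conjugate of `K(y)`. -/
def SpecCJ2 : Prop := ∀ (p L s0 b : ℕ) {X : Type} [Group X] [Finite X] (P : Subgroup X) (χ : X → ℂ)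
  (K : Lin X), Hy p L s0 b P χ K →
  ∀ y, avK p s0 b χ K y⁻¹ = (starRingEnd ℂ) (avK p s0 b χ K y)

/-- NR2. The norm of `avK`.
PROOF. `ψ_i := K^(-i) χ_i` is the character of the representation `y ↦ K(y)^(-i) σ_i(r y)`, `σ_i` an
automorphism of `ℂ` with `σ_i ξ = ξ^(1 + s0 q i)` for `ξ^L = 1` (`exists_aut`, `gal_trace`; `galR` in
`W/NRM.lean`), which is `Sch`. By ORT (`W/ORT.lean`) `∑_y ψ_i(y) ψ_j(y⁻¹)` is `|X|` if `ψ_i = ψ_j` and
`0` otherwise. So it is enough that the `ψ_i`, `i < p`, are different: then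
`∑_y |avK y|² = p⁻² ∑_{i,j<p} ∑_y ψ_i(y) ψ_j(y⁻¹) = p⁻² · p · |X|` (`CJ2`, or directly).
Suppose `ψ_i = ψ_j`, `j < i < p`, `d = i - j`: `χ(y^κ_i) = K(y)^d χ(y^κ_j)` for all `y`,
`κ_i = 1 + s0 q i`. `κ_j + s0 q d = κ_i`. Let `k = κ_j^(φ(L)-1)` be inverse to `κ_j` modulo `L`;
`k ≡ 1` modulo `p` because `κ_j ≡ 1`. Replace `y` by `y^k`:
`χ(y^(k κ_i)) = K(y)^d χ(y)` (`K(y)^k = K(y)`), `k κ_i ≡ 1 + s0 q d k`, and `k = 1 + p k'`, so
`k κ_i ≡ (1 + s0 q d) + s0 p^b (d k') ≡ (1 + s0 q d)(1 + s0 p^b t)` (PRM (5)), whence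
`χ(y^(1 + s0 q d)) = K(y)^d χ(y)` for all `y` by `FX`. As in PWL it follows by induction on `m` that
`χ(y^(1 + s0 q d m)) = K(y)^(d m) χ(y)` (`K(y^(1 + s0 q d)) = K(y)`, as `p ∣ q`). Take `m` with
`d m ≡ 1` modulo `p`: `1 + s0 q d m = (1 + s0 q) + s0 p^b t'`, so `χ(y^(1 + s0 q)) = K(y) χ(y)` for all
`y`, a contradiction. -/
def SpecNR2 : Prop := ∀ (p L s0 b : ℕ) {X : Type} [Group X] [Fintype X] (P : Subgroup X) (n : ℕ)
  (r : X →* Matrix (Fin n) (Fin n) ℂ) (K : Lin X), Sch r → n ≠ 0 →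
  Hy p L s0 b P (fun y => (r y).trace) K →
  (∃ y, (r (y ^ (1 + s0 * p ^ (b - 1)))).trace ≠ (K y : ℂ) * (r y).trace) →
  ∑ y, ‖avK p s0 b (fun y => (r y).trace) K y‖ ^ 2 ≤ (Fintype.card X : ℝ) / p

/-! ## Nonvanishing -/

/-- DLM. The number `dl` for a commutative group.
PROOF. On a finite commutative group `χ = ∑_η ml χ η · η` (`inversion` in `W/SCA.lean`), and the mean
value of `η(x^q) k(x)⁻¹` is `1` if `η^q = k` and `0` otherwise. -/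
def SpecDLM : Prop := ∀ {P : Type} [CommGroup P] [Fintype P] (q : ℕ) (χ : P → ℂ), IsCharacter χ →
  ∀ k : Lin P, ((dl q χ k : ℕ) : ℂ) =
    (Fintype.card P : ℂ)⁻¹ * ∑ x : P, χ (x ^ q) * (((k x)⁻¹ : ℂˣ) : ℂ)

/-- NV2. Nonvanishing.
PROOF. Let `χ = trace ρ`. `E = |P|⁻¹ ∑_{x ∈ P} K(x)⁻¹ ρ(x^q)` is idempotent and commutes with `ρ(P)`
(`x ↦ x^q` is a homomorphism on the abelian group `P`), so `D(u) = trace (E ρ(u))
= |P|⁻¹ ∑_{x ∈ P} χ(u x^q) K(x)⁻¹` is a character of `P` (`idem_char` in `W/IdC.lean`), and `D(1) = dl`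
(DLM). If `p ∤ dl` then `D(u) ≠ 0` for `u ∈ P` (`W.SpecNVZ`, proved in `W/NVZ.lean`). For `u, x ∈ P`,
`z = u x^q`, `i < p`: `z^(1 + s0 q i) = z^(1 + q i) = u (u^i x^(1 + q i))^q`, `K(z) = K(u)` (`K^q = 1`);
put `x' = u^i x^(1 + q i)` (a bijection of `P`), `K(x') = K(u)^i K(x)`:
`∑_x K(z)^(-i) χ(z^(1 + s0 q i)) K(x)⁻¹ = ∑_x' χ(u x'^q) K(x')⁻¹`. So
`∑_{x ∈ P} avK(u x^q) K(x)⁻¹ = ∑_{x ∈ P} χ(u x^q) K(x)⁻¹ = |P| D(u) ≠ 0`. -/
def SpecNV2 : Prop := ∀ (p L s0 b : ℕ) {X : Type} [Group X] [Finite X] (P : Subgroup X) (χ : X → ℂ)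
  (K : Lin X), Hy p L s0 b P χ K →
  ¬ p ∣ dl (p ^ (b - 1)) (fun x : P => χ x) (resL P K) →
  ∀ u ∈ P, ∃ x ∈ P, avK p s0 b χ K (u * x ^ p ^ (b - 1)) ≠ 0

/-! ## Sections -/

/-- REL. `Rel` is an equivalence relation on an abelian `P`, compatible with powers.
PROOF. If `g` maps the finite group `P` into itself, so does `g⁻¹`. Symmetry: `(g u g⁻¹)^q = v^q w^(pq)`
gives `(g⁻¹ v g)^q = u^q (g⁻¹ w⁻¹ g)^(pq)`. Transitivity: `(h v h⁻¹)^q = z^q w'^(pq)`, so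
`((hg) u (hg)⁻¹)^q = (h v h⁻¹)^q (h w h⁻¹)^(pq) = z^q (w' h w h⁻¹)^(pq)`. -/
def SpecREL : Prop := ∀ (p b : ℕ) {X : Type} [Group X] [Finite X] (P : Subgroup X),
  (∀ x ∈ P, ∀ y ∈ P, x * y = y * x) →
  (∀ u ∈ P, Rel p b P u u) ∧ (∀ u ∈ P, ∀ v ∈ P, Rel p b P u v → Rel p b P v u) ∧
  (∀ u ∈ P, ∀ v ∈ P, ∀ z ∈ P, Rel p b P u v → Rel p b P v z → Rel p b P u z) ∧
  (∀ u ∈ P, ∀ v ∈ P, ∀ k : ℕ, Rel p b P u v → Rel p b P (u ^ k) (v ^ k))

/-- FUS. Burnside's fusion theorem (`Sylow.conj_eq_normalizer_conj_of_mem_centralizer`; see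
`W/CNT2.lean`). -/
def SpecFUS : Prop := ∀ (p : ℕ), p.Prime → ∀ {X : Type} [Group X] [Finite X] (P : Subgroup X),
  Nat.card P = p ^ (Nat.card X).factorization p → (∀ x ∈ P, ∀ y ∈ P, x * y = y * x) →
  ∀ (a g : X), a ∈ P → g * a * g⁻¹ ∈ P →
  ∃ n : X, (∀ x ∈ P, n * x * n⁻¹ ∈ P) ∧ n * a * n⁻¹ = g * a * g⁻¹

/-- SEC. Facts on the sections.
PROOF. (1) conjugation. (2) `a = g y^s0 g⁻¹ ∈ P`, `a' = g' y^s0 g'⁻¹ ∈ P`; by FUS `a' = n a n⁻¹`, `n`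
normalizing `P`; `Rel a u`, `Rel a' v`, `Rel a a'` (with `w = 1`), and REL. (3) `y = u x^q` is a
`p`-element, `y^s0 = y`, `y^q = u^q x^(q²)` and `q² = p^b p^(b-2)`. (4) `P` is abelian, so
`(u^q w^(pq))^k = (u^k)^q (w^k)^(pq)`; conversely use `k'` with `k k' ≡ 1` modulo `L`. (5)
`(t w)^s0 = t^s0 w^s0 = w`; so `Sec u (t w)` says that some `g w g⁻¹ ∈ P` is in `u P₁`, and by FUS `g`
can be replaced by an element which normalizes `P`. (6) `(t w)^s0 = t^s0 w^s0 = t^s0`. -/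
def SpecSEC : Prop := ∀ (p : ℕ), p.Prime → ∀ (L s0 b : ℕ), 2 ≤ b → L ≠ 0 → Pex p L s0 →
  ∀ {X : Type} [Group X] [Finite X] (P : Subgroup X), Nat.card X ∣ L →
  Nat.card P = p ^ (Nat.card X).factorization p → (∀ x ∈ P, ∀ y ∈ P, x * y = y * x) →
  (∀ u g y : X, Sec p s0 b P u (g * y * g⁻¹) ↔ Sec p s0 b P u y) ∧
  (∀ u ∈ P, ∀ v ∈ P, ∀ y, Sec p s0 b P u y → Sec p s0 b P v y → Rel p b P u v) ∧
  (∀ u ∈ P, ∀ x ∈ P, Sec p s0 b P u (u * x ^ p ^ (b - 1))) ∧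
  (∀ u ∈ P, ∀ k : ℕ, k.Coprime L → ∀ y, (Sec p s0 b P u y ↔ Sec p s0 b P (u ^ k) (y ^ k))) ∧
  (∀ u ∈ P, ∀ t : X, (orderOf t).Coprime p → ∀ w ∈ P, t * w = w * t →
    (Sec p s0 b P u (t * w) ↔ Rel p b P w u)) ∧
  (∀ l : ℕ, l.Prime → l ≠ p → ∀ u t w : X, t * w = w * t → (∃ k, w ^ l ^ k = 1) →
    (Sec p s0 b P u (t * w) ↔ Sec p s0 b P u t))

/-! ## Integrality -/

/-- LF2. Frobenius, with denominators. `l` prime, `F` a class function on `D` such that `l^m F w` is an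
algebraic integer for all `l`-elements `w`, and the mean value of `F` on each `l`-subgroup is an
algebraic integer. Then the sum of `F` over the `l`-elements is divisible by `l^(v_l |D|)` away from
denominators prime to `l`.
PROOF. `a = v_l |D|`, `Q₀` a Sylow `l`-subgroup, `π w` the number of fixed points of `w` on `D/Q₀` (see
`W/LFM.lean`: `π w ≠ 0` only for `l`-elements, and then `l ∤ π w`). Let `i ≥ 1` with `π^i ≡ 1` modulo
`l^(a+m)` for all integers `π` prime to `l`. Then `∑_{w l-element} F w = ∑_{w ∈ D} F w (π w)^i -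
∑_{w l-element} F w ((π w)^i - 1)`, the second sum is `l^a` times an algebraic integer. `(π w)^i` is the
number of fixed points of `w` on `Ω = (D/Q₀)^i`, so `∑_{w ∈ D} F w (π w)^i = ∑_{ω ∈ Ω} ∑_{w ∈ D_ω} F w
= ∑_{ω ∈ Ω} |D_ω| m(ω)`, `m(ω)` the mean value of `F` on the stabilizer `D_ω`, an `l`-group (`i ≥ 1`);
`m` is constant on the orbits, so this is `|D|` times the sum of `m` over the orbits. -/
def SpecLF2 : Prop := ∀ (l : ℕ), l.Prime → ∀ {D : Type} [Group D] [Fintype D] (F : D → ℂ),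
  (∀ g w, F (g * w * g⁻¹) = F w) → ∀ m : ℕ,
  (∀ w, (∃ k : ℕ, w ^ l ^ k = 1) → IsIntegral ℤ ((l : ℂ) ^ m * F w)) →
  (∀ Q : Subgroup D, IsPGroup l Q → IsIntegral ℤ ((Nat.card Q : ℂ)⁻¹ *
    ∑ w : D, open Classical in if w ∈ Q then F w else 0)) →
  LD l ((Fintype.card D).factorization l)
    (∑ w : D, open Classical in if ∃ k : ℕ, w ^ l ^ k = 1 then F w else 0)

/-- LS2. As LSP (`W/LSP.lean`), with LF2 instead of LFM. -/
def SpecLS2 : Prop := ∀ (l : ℕ), l.Prime → ∀ {C : Type} [Group C] [Fintype C] (F : C → ℂ),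
  (∀ g w, F (g * w * g⁻¹) = F w) → ∀ m : ℕ, (∀ y, IsIntegral ℤ ((l : ℂ) ^ m * F y)) →
  (∀ (t : C), (orderOf t).Coprime l → ∀ Q : Subgroup C, IsPGroup l Q →
    (∀ w ∈ Q, t * w = w * t) → IsIntegral ℤ ((Nat.card Q : ℂ)⁻¹ *
      ∑ w : C, open Classical in if w ∈ Q then F (t * w) else 0)) →
  LD l ((Fintype.card C).factorization l) (∑ y, F y)

/-- DUA. Duality for `P / P₁`, `P₁ = {x : x^q ∈ P^(pq)}`.
PROOF. `An p b P` is the group of the characters of `P / P₁` (`QuotientGroup.lift`;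
`CommGroup.card_monoidHom_of_hasEnoughRootsOfUnity`, `sum_lin` in `W/SCA.lean`), and `x ↦ x^q` induces
an isomorphism of `P / P₁` onto `P^q / P^(pq)`. -/
def SpecDUA : Prop := ∀ (p b : ℕ), p.Prime → 1 ≤ b → ∀ {P : Type} [CommGroup P] [Finite P],
  (∀ x : P, ∑ α ∈ An p b P, ((α x : ℂˣ) : ℂ) =
    open Classical in if (∃ v : P, x ^ p ^ (b - 1) = v ^ p ^ b) then ((An p b P).card : ℂ) else 0) ∧
  (An p b P).card * Nat.card {z : P // ∃ x : P, x ^ p ^ b = z} =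
    Nat.card {z : P // ∃ x : P, x ^ p ^ (b - 1) = z}

/-- EXA. `Q ≤ P` finite abelian `p`-groups, `a ≠ 1` a character of `Q` which is trivial on
`{w ∈ Q : w^q = 1}`: some power of `a` is the restriction of a nontrivial `α ∈ An p b P`.
PROOF. If two different elements of `An p b P` have the same restriction to `Q` take their quotient,
`i = 0`. Otherwise restriction is an injection of `An p b P` into
`An p b Q` (`w^q = v^(pq)` in `Q` holds in `P`). By DUA `|An p b Q| = |B : B^p|`, `B = Q^q`, and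
`|An p b P| = |R : R^p|`, `R = P^q ≥ B`. For a finite commutative group `|B : B^p|` is the number of
`x ∈ B` with `x^p = 1` (kernel and image of `x ↦ x^p`), so `|An p b Q| ≤ |An p b P|` and the injection is
a bijection. Let `p^m`, `m ≥ 1`, be the order of `a`, `a₀ = a^(p^(m-1)) ≠ 1`, `a₀^p = 1`. If
`w^q = v^(pq)` then `(w v^(-p))^q = 1`, so `a(w) = a(v)^p` and `a₀(w) = a₀(v)^p = 1`: `a₀ ∈ An p b Q`
is the restriction of some `α ∈ An p b P`. -/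
def SpecEXA : Prop := ∀ (p b : ℕ), p.Prime → 1 ≤ b → ∀ {P : Type} [CommGroup P] [Finite P],
  IsPGroup p P → ∀ (Q : Subgroup P) (a : Lin Q), (∀ w : Q, w ^ p ^ (b - 1) = 1 → a w = 1) →
  a ≠ 1 → ∃ α ∈ An p b P, α ≠ 1 ∧ ∃ i : ℕ, ∀ w : Q, α w = a w ^ i

/-- PSM. The sum of an invariant function over a set on which a permutation of `p`-power order acts
without fixed points is divisible by `p` in the algebraic integers.
PROOF. Strong induction on `|S|` or the orbits of the cyclic group; each orbit has a size `p^j`,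
`j ≥ 1`. (Compare `sum_modEq_pow` in `W/SCA.lean`.) -/
def SpecPSM : Prop := ∀ (p : ℕ), p.Prime → ∀ {X : Type} (S : Finset X) (s : X → X) (k : ℕ),
  (∀ x ∈ S, s x ∈ S) → (∀ x ∈ S, s^[p ^ k] x = x) → (∀ x ∈ S, s x ≠ x) → ∀ F : X → ℂ,
  (∀ x ∈ S, F (s x) = F x) → (∀ x ∈ S, IsIntegral ℤ (F x)) →
  ∃ c : ℂ, IsIntegral ℤ c ∧ ∑ x ∈ S, F x = p * c

/-- AM1. The Fourier coefficients `n μ = |Q|⁻¹ ∑_w am(w) μ(w)⁻¹` of `am`.
PROOF. `φ`, hence `am`, is in `GC` (`am` is a sum of products of `w ↦ φ(w^j)` and characters; GCA2), so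
`n μ` is integral. (2) `am(w^(1 + q i)) = k(w)^i am(w)`: as `k(w)^q = 1`,
`am(w^(1+qi)) = ∑_{j<p} k(w)^(-j) φ(w^((1+qi)(1+qj)))`, and
`(1+qi)(1+qj) = (1 + q(i+j)) + p^b t'`, which is `≡ (1 + q(i+j))(1 + p^b t)` modulo `|Q|` for some `t`;
so it is `k(w)^i ∑_j k(w)^(-(i+j)) φ(w^(1+q(i+j)))`, and the summand depends only on `i + j` modulo `p`.
Hence `n(μ^(1+qi) k^(-i)) = |Q|⁻¹ ∑_w am(w) k(w)^i μ(w)^(-(1+qi)) = |Q|⁻¹ ∑_w am(w^(1+qi))
μ(w^(1+qi))⁻¹ = n μ` (`w ↦ w^(1+qi)` is a bijection of `Q`). (3) If `μ^q = k` on `Q` then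
`n μ = ∑_i |Q|⁻¹ ∑_w φ(w^(1+qi)) μ(w)^(-(1+qi)) = p · |Q|⁻¹ ∑_w φ(w) μ(w)⁻¹`.
(4) Fourier inversion (`inversion` in `W/SCA.lean`). -/
def SpecAM1 : Prop := ∀ (p b : ℕ), p.Prime → 2 ≤ b → ∀ {P : Type} [CommGroup P] [Fintype P],
  IsPGroup p P → ∀ (Q : Subgroup P) [Fintype Q] (φ : Q → ℂ), GC φ →
  (∀ (t : ℕ) (w : Q), φ (w ^ (1 + p ^ b * t)) = φ w) → ∀ k : Lin P, k ^ p = 1 →
  ∃ n : Lin Q → ℂ, (∀ μ, IsIntegral ℤ (n μ)) ∧
    (∀ (μ : Lin Q) (i : ℕ), n (μ ^ (1 + p ^ (b - 1) * i) * (resL Q k ^ i)⁻¹) = n μ) ∧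
    (∀ μ : Lin Q, μ ^ p ^ (b - 1) = resL Q k → ∃ c : ℂ, IsIntegral ℤ c ∧ n μ = p * c) ∧
    (∀ w : Q, am p b φ k w = ∑ μ : Lin Q, n μ * ((μ w : ℂˣ) : ℂ))

/-- COR. The core of the integrality.
PROOF. Let `n μ` be as in AM1 and `A = An p b P`. By DUA
`|A| [∃ v, w^q = u^q v^(pq)] = ∑_{α ∈ A} α(u)⁻¹ α(w)` (`[...]` for `x = u⁻¹ w`), and the mean value on
`Q` of `α μ λ⁻¹` is `[λ = α μ]`; so the number in question is
`p⁻² S`, `S = ∑_μ n μ G μ`, `G μ = ∑_{α ∈ A} α(u)⁻¹ conj (n (α μ))` (`α μ = (resL Q α) μ`).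
`α^p = 1` for `α ∈ A` (`(x^p)^q = x^(pq)`), so `α^q = 1`. Let `s μ = μ^(1+q) k⁻¹`, a permutation of
`p`-power order of `Lin Q` (`Lin Q` is a finite `p`-group; `s^i μ = μ^((1+q)^i) k^(-i)`). `n ∘ s = n`,
`s(α μ) = α (s μ)`, so `G ∘ s = G`. If `s μ = μ`, that is `μ^q = k`, then `(α μ)^q = k` for all `α`, so
`p ∣ n μ` and `p ∣ G μ` in the algebraic integers (AM1 (3)). If `s μ ≠ μ`, let `a = μ^q k⁻¹ ≠ 1`; it is
trivial on `{w : w^q = 1}` (hypothesis on `k`). By EXA there is `α' ∈ A`, `α' ≠ 1`, with `α'|Q = a^i`.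
For `ν = α μ`: `ν^q k⁻¹ = a`, so `n(a^j ν) = n(ν^(1+qj) k^(-j)) = n ν` for all `j`, and
`c(α) = n(α μ)` satisfies `c(α' α) = c(α)`. If `α'(u) ≠ 1` then `G μ = α'(u)⁻¹ G μ`, so `G μ = 0`;
if `α'(u) = 1` the summand of `G μ` is invariant under `α ↦ α' α`, a permutation of `A` of order `p`
without fixed points, so `p ∣ G μ` by PSM. So `G μ = p G' μ` with `G' ∘ s = G'` integral, and
`∑_{s μ ≠ μ} n μ G' μ` is divisible by `p` by PSM. Hence `p² ∣ S`. -/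
def SpecCOR : Prop := ∀ (p b : ℕ), p.Prime → 2 ≤ b → ∀ {P : Type} [CommGroup P] [Fintype P],
  IsPGroup p P → ∀ (Q : Subgroup P) [Fintype Q] (φ : Q → ℂ), GC φ →
  (∀ (t : ℕ) (w : Q), φ (w ^ (1 + p ^ b * t)) = φ w) → ∀ k : Lin P, k ^ p = 1 →
  (∀ x : P, x ^ p ^ (b - 1) = 1 → k x = 1) → ∀ u : P,
  IsIntegral ℤ (((An p b P).card : ℂ) * ((Fintype.card Q : ℂ)⁻¹ * ∑ w : Q,
    open Classical in if (∃ v : P, (w : P) ^ p ^ (b - 1) = u ^ p ^ (b - 1) * v ^ p ^ b) then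
      ((p : ℂ)⁻¹ * am p b φ k w) * (starRingEnd ℂ) ((p : ℂ)⁻¹ * am p b φ k w) else 0))

/-- CX1. COR inside `X`, for `Q ≤ P`.
PROOF. `P` is a commutative group, `Q.subgroupOf P`; `φ(w) = χ(t w)` is in `GC` (`W.SpecTWG`, proved
in `W/IdC.lean`); `(t w)^(1 + s0 p^b t') = t w^(1 + p^b t')`, since `t^s0 = 1` and `w^s0 = w` (PRM), so
`φ` is invariant; `K(t) = 1` (`K(t)^p = 1` and the order of `t` is prime to `p`), so
`avK(t w) = (1/p) am φ K w`; `avK((t w)⁻¹)` is the conjugate (CJ2). `|An p b P| = NN p b P` (DUA and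
`nR_eq` in `W/INT.lean`). -/
def SpecCX1 : Prop := ∀ (p L s0 b : ℕ) {X : Type} [Group X] [Fintype X] (P : Subgroup X) (χ : X → ℂ)
  (K : Lin X), Hy p L s0 b P χ K → ∀ u ∈ P, ∀ t : X, (orderOf t).Coprime p → ∀ Q : Subgroup X,
  Q ≤ P → (∀ w ∈ Q, t * w = w * t) →
  IsIntegral ℤ (NN p b P * ((Nat.card Q : ℂ)⁻¹ * ∑ w : X, open Classical in
    if w ∈ Q ∧ (∃ v ∈ P, w ^ p ^ (b - 1) = u ^ p ^ (b - 1) * v ^ p ^ b) then
      avK p s0 b χ K (t * w) * avK p s0 b χ K (t * w)⁻¹ else 0))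

/-- CX2. The same for the section of `u` and for all `p`-subgroups `Q` commuting with `t`.
PROOF. By Sylow's theorem `g Q g⁻¹ ≤ P` for some `g`; the summand is invariant under simultaneous
conjugation of `t`, `w` (SEC (1); `avK` is a class function), so we may assume `Q ≤ P`. By SEC (5)
`Sec u (t w)` is equivalent to `Rel w u`. Let `w ≈ z` mean `∃ v ∈ P, w^q = z^q v^(pq)`, an equivalence
relation on `P`; `Rel w u` depends only on the class of `w` (REL). So the sum is the sum over the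
classes (representatives `z`) with `Rel z u` of the sums of CX1 for `z`. -/
def SpecCX2 : Prop := ∀ (p L s0 b : ℕ) {X : Type} [Group X] [Fintype X] (P : Subgroup X) (χ : X → ℂ)
  (K : Lin X), Hy p L s0 b P χ K → ∀ u ∈ P, ∀ t : X, (orderOf t).Coprime p → ∀ Q : Subgroup X,
  IsPGroup p Q → (∀ w ∈ Q, t * w = w * t) →
  IsIntegral ℤ ((Nat.card Q : ℂ)⁻¹ * ∑ w : X, open Classical in if w ∈ Q then
    (if Sec p s0 b P u (t * w) then
      NN p b P * (avK p s0 b χ K (t * w) * avK p s0 b χ K (t * w)⁻¹) else 0) else 0)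

/-- IN2. Integrality.
PROOF. GLU (`W/GLU.lean`) for `n = |X|` and `x = ∑_y F y`,
`F y = [Sec u y] NN · avK(y) avK(y⁻¹)`, a class function (`NN` is a natural number, by DUA, or the index
of a subgroup). For the prime `p`: LS2 with `m = 2` (`p · avK` is integral) and CX2. For a prime
`l ≠ p`: `LSP` (`W/LSP.lean`) for `p² F`: let `t` have order prime to `l` and `Q` be an `l`-group
commuting with `t`; for `w ∈ Q`: `w^s0 = 1` (PRM), so `(t w)^(1 + s0 q i) = t^(1 + s0 q i) w`,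
`K(t w) = K(t)` (`K(w)^p = 1`, the order of `w` is a power of `l ≠ p`), `Sec u (t w) ↔ Sec u t`
(SEC (6)); so `w ↦ p avK(t w) = ∑_i K(t)^(-i) χ(t^(1 + s0 q i) w)` is in `GC` by TWG and GCA2, the same
for `p avK((t w)⁻¹)` (apply it to `t⁻¹`, and `w ↦ w⁻¹`), and products are in `GC`. Divide by `p²`
(`LD l a (p² x)` implies `LD l a x`, as `l ∤ p²`). -/
def SpecIN2 : Prop := ∀ (p L s0 b : ℕ) {X : Type} [Group X] [Fintype X] (P : Subgroup X) (χ : X → ℂ)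
  (K : Lin X), Hy p L s0 b P χ K → ∀ u ∈ P, IsIntegral ℤ (BB p s0 b P χ K u)

/-! ## Conclusion -/

/-- GL2. Galois conjugation. `σ ξ = ξ^k` for `ξ^L = 1`, `k` prime to `L`: `σ (BB u) = BB (u^k)`.
PROOF. `σ(χ y) = χ(y^k)` (`gal_trace`, `aga_gal` in `W/AGA.lean`), `σ(K y) = K(y^k)`, so
`σ(avK y) = avK(y^k)`; `y ↦ y^k` is a bijection of `X` which maps `Sec u` to `Sec (u^k)` (SEC (4)). -/
def SpecGL2 : Prop := ∀ (p L s0 b : ℕ) {X : Type} [Group X] [Fintype X] (P : Subgroup X) (χ : X → ℂ)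
  (K : Lin X), Hy p L s0 b P χ K → ∀ u ∈ P, ∀ k : ℕ, k.Coprime L → ∀ σ : ℂ →+* ℂ,
  (∀ ξ : ℂ, ξ ^ L = 1 → σ ξ = ξ ^ k) → σ (BB p s0 b P χ K u) = BB p s0 b P χ K (u ^ k)

/-- CY2. `BB u ∈ ℚ_L`.
PROOF. `IsCharacter.mem_cyc_card`, `cyc_mono`, `root_mem`. -/
def SpecCY2 : Prop := ∀ (p L s0 b : ℕ) {X : Type} [Group X] [Fintype X] (P : Subgroup X) (χ : X → ℂ)
  (K : Lin X), Hy p L s0 b P χ K → ∀ u : X, BB p s0 b P χ K u ∈ cycField L

/-- PO2. `BB u` is a real number `≥ 0` (CJ2). -/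
def SpecPO2 : Prop := ∀ (p L s0 b : ℕ) {X : Type} [Group X] [Fintype X] (P : Subgroup X) (χ : X → ℂ)
  (K : Lin X), Hy p L s0 b P χ K → ∀ u : X, BB p s0 b P χ K u =
    (((nR P (p ^ (b - 1)) : ℝ) / (nR P (p ^ b) : ℝ) * ((Fintype.card X : ℝ)⁻¹ *
      ∑ y : X, (open Classical in if Sec p s0 b P u y then ‖avK p s0 b χ K y‖ ^ 2 else 0)) : ℝ) : ℂ)

/-- UP2. The upper bound for pairwise inequivalent elements (PO2, SEC (2)). -/
def SpecUP2 : Prop := ∀ (p L s0 b : ℕ) {X : Type} [Group X] [Fintype X] (P : Subgroup X) (χ : X → ℂ)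
  (K : Lin X), Hy p L s0 b P χ K → ∀ A : Finset X, (∀ u ∈ A, u ∈ P) →
  (∀ u ∈ A, ∀ v ∈ A, Rel p b P u v → u = v) →
  ∑ u ∈ A, (BB p s0 b P χ K u).re ≤ (nR P (p ^ (b - 1)) : ℝ) / (nR P (p ^ b) : ℝ) *
    ((Fintype.card X : ℝ)⁻¹ * ∑ y, ‖avK p s0 b χ K y‖ ^ 2)

/-- FN2. The main inequality.
PROOF. If `p ∤ dl` then `dl ≠ 0`, so there is `η ∈ Lin P` with `η^q = K|P`, and `K(x) = η(x^q) = 1` if
`x^q = 1`: `Hy` holds. CMB (`W/CMB.lean`) for the set `P`, the equivalence relation `Rel` (REL),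
`U = (ZMod L)ˣ` acting by `u ↦ u^k` (`k.val`; `pow_val` in `W/FIN.lean`; compare `W/FIN.lean`),
`α u = (BB u).re`, `Z = P`, `B = |R : R^p|/p`: the lower bound is AMG (`W/AMG.lean`; IN2, CY2, GL2,
PO2 and NV2 with SEC (3)), the upper bound UP2 and NR2. So the number of classes is at most `B`; the set
`A` of `Crt` is a set of representatives of different classes, so `|A| ≤ B`, a contradiction. -/
def SpecFN2 : Prop := ∀ (p : ℕ), p.Prime → ∀ (L s0 b : ℕ), 2 ≤ b → L ≠ 0 → Pex p L s0 →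
  ∀ {X : Type} [Group X] [Finite X] (P : Subgroup X), Nat.card X ∣ L →
  Nat.card P = p ^ (Nat.card X).factorization p → (∀ x ∈ P, ∀ y ∈ P, x * y = y * x) →
  Crt p b P → ∀ (n : ℕ) (r : X →* Matrix (Fin n) (Fin n) ℂ), Sch r → ¬ p ∣ n →
  FX p s0 b (fun y => (r y).trace) → ∀ K : Lin X, K ^ p = 1 →
  (∃ y, (r (y ^ (1 + s0 * p ^ (b - 1)))).trace ≠ (K y : ℂ) * (r y).trace) →
  p ∣ dl (p ^ (b - 1)) (fun x : P => (r x).trace) (resL P K)

end Pool.Agent.Lib.MP_1aae89_al.W3
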