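import Pool.Agent.Lib.MP_1aae89_al.W3.DefsB
import Pool.Agent.Lib.MP_1aae89_al.W3.SpecA

/-!
# Specifications, part B: `p`-groups, induction, Clifford theory, the reduction theorem

NOTATION. `P` is a `p`-group (not commutative in general), `q = p^(b-1)`, `b ≥ 2`. `ml χ η` is the
multiplicity of the linear character `η` in `χ`, `dl q χ k` is the sum of `ml χ η` over the `η` with
`η^q = k`.

THE REDUCTION THEOREM (REC). Let `H` be a normal subgroup of the finite group `X`, `P` a Sylow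
`p`-subgroup. Suppose `Good p b (X/H)` (the statement `IC` holds for all central `p'`-extensions of
subgroups of `p'`-index of `X/H`) and (`IC p b' (H P)` for all `b' ≥ b`, or all irreducible characters
of `H` of degree prime to `p` have level less than `b`). Then `IC p b' X` for all `b' ≥ b`.

PROOF. Induction on `|X|`. Let `χ`, `K` be as in `IC p b' X`. (TWS) We may assume that the determinant
has order prime to `p`. (INR) If the restriction of `χ` to `H` is not isotypic then `χ` is induced from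
a proper subgroup `T ≥ H`, whose index is prime to `p`; use `IC` for `T` and Mackey's formula. (EXT) If
it is a multiple of `θ ∈ Irr(H)` then on a central `p'`-extension `Y → X` we have `χ = ζ a`, where `a`
extends `θ` and `ζ` is irreducible and trivial on (a copy `H0` of) `H`. (GLA) A Galois automorphism of
`p`-power order which fixes `θ` fixes `a`. (C1) If `θ(h^κ) = θ(h)` for `κ = 1 + s0 q` then
`dl χ ≡ a(1) dl ζ` and `ζ` is a character of `Y/H0`, a central `p'`-extension of `X/H`. (C2) Otherwise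
`dl χ ≡ ∑_η ml ζ η · dl a (K η^(-q))` (sum over `Lin P`), and each term is divisible by `p` by `IC` for
`H P` and the character `a|HP` (the `η` with `ml ζ η ≠ 0` are trivial on `P ∩ H`, so they extend to
`H P`), or by Galois invariance if `η^(pq) ≠ 1`.
-/

set_option autoImplicit false

namespace Pool.Agent.Lib.MP_1aae89_al.W3

open Pool.Agent.Lib.MP_1aae89_al Pool.Agent.Lib.MP_1aae89_al.BF Finset
open Pool.Agent.Lib.MP_1aae89_al.W (GC LD nR)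
open Pool.Agent.Lib.MP1aae89 (Pex)
open scoped Kronecker

/-! ## `p`-groups -/

/-- TWM. Twisting: `η ↦ η β` is a bijection of `{η : η^q = k}` onto `{η : η^q = k β^q}`, and
`ml (χ β) (η β) = ml χ η` (`mlt_congr`). -/
def SpecTWM : Prop := ∀ {P : Type} [Group P] [Finite P] (q : ℕ) (χ : P → ℂ) (k β : Lin P),
  dl q (fun x => χ x * ((β x : ℂˣ) : ℂ)) (k * β ^ q) = dl q χ k

/-- QDL. Inflation (in particular isomorphisms). `π : P → P'` surjective.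
PROOF. If `η h ≠ 1` for some `h` with `π h = 1` then substituting `x h` for `x` in
`∑_x χ(π x) η(x)⁻¹` shows that this sum is `0`, so `ml (χ ∘ π) η = 0`. Otherwise `η = pb π η'` for a unique
`η'` (`QuotientGroup.lift` or choice of preimages), `ml (χ ∘ π) (pb π η') = ml χ η'` (the fibres of `π`
have the same size), and `η^q = pb π k ↔ η'^q = k`. -/
def SpecQDL : Prop := ∀ {P P' : Type} [Group P] [Finite P] [Group P'] [Finite P'] (π : P →* P'),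
  Function.Surjective π → ∀ (q : ℕ) (χ : P' → ℂ), IsCharacter χ → ∀ k : Lin P',
  dl q (fun x => χ (π x)) (pb π k) = dl q χ k

/-- NLI. A nonlinear irreducible character `χ` of a `p`-group is fixed by a twist of order `p`.
PROOF. By ORT (`W/ORT.lean`) `ml χ η = 0` for all linear `η` (`n ≠ 1`). By `deg` (`Deg.lean`)
`n ≡ ∑_η ml χ η = 0` modulo `p`, and `n² ≡ ∑_ω ml (χ χ∨) ω`, where `ml (χ χ∨) ω = |P|⁻¹ ∑_x χ(x)
χ(x⁻¹) ω(x)⁻¹` is `1` if `ω χ = χ` and `0` otherwise (ORT for `r` and its twist by `ω`, again `Sch`). So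
the number of `ω` with `ω χ = χ` is divisible by `p`; these `ω` form a subgroup of `Lin P`, which
contains an element of order `p` (Cauchy). -/
def SpecNLI : Prop := ∀ (p : ℕ), p.Prime → ∀ {P : Type} [Group P] [Fintype P] (e : ℕ),
  Nat.card P = p ^ e → ∀ (n : ℕ) (r : P →* Matrix (Fin n) (Fin n) ℂ), Sch r → n ≠ 0 → n ≠ 1 →
  ∃ ω : Lin P, ω ≠ 1 ∧ ω ^ p = 1 ∧ ∀ x, ((ω x : ℂˣ) : ℂ) * (r x).trace = (r x).trace

/-- MUL. Linear constituents of a product, modulo `p`.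
PROOF. Both sides are additive in `ζ`; strong induction on the degree `n` of a representation `ρ` of
`ζ`. If `ρ` is not `Sch` (`exists_idem`, `idem_factor`, `compr` of `BF/`) then `ζ = ζ₁ + ζ₂` with
characters of smaller degree. `n = 0`: `ζ = 0`. `n = 1`: `ζ = η₀` is linear, `ml ζ η = [η = η₀]`, and
`dl q (η₀ a) k = dl q a (k η₀^(-q))` by TWM. `n ≥ 2` and `ρ` `Sch`: the right side is `0` since
`ml ζ η = 0` for all `η` (ORT). By NLI `ω ζ = ζ`, `ω ≠ 1`, `ω^p = 1`; so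
`ml (ζ a) (λ ω) = ml (ζ a) λ`, and `λ ↦ λ ω` is a permutation of `{λ : λ^q = k}` (`p ∣ q`) of order `p`
without fixed points: `p` divides the left side (`dvd_sum` in `Lin.lean`). -/
def SpecMUL : Prop := ∀ (p : ℕ), p.Prime → ∀ {P : Type} [Group P] [Fintype P] (e : ℕ),
  Nat.card P = p ^ e → ∀ (ζ a : P → ℂ), IsCharacter ζ → IsCharacter a → ∀ q : ℕ, p ∣ q →
  ∀ k : Lin P, dl q (fun x => ζ x * a x) k ≡
    ∑ η : Lin P, ml ζ η * dl q a (k * (η ^ q)⁻¹) [MOD p]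

/-- SUG. Galois invariance.
PROOF. (Compare `dvd_coset` in `Lin.lean`.) Let `p^f` be the order of `k`; `f ≥ c + 2 - b`. Put
`ω = k^(p^(f-1)) ≠ 1`, `ω^p = 1`. For `λ^q = k` we have `ω = λ^(p^(b+f-2))`, so `λ ω = λ^(1 + p^c t)`
with `t = p^(b+f-2-c)`, and `ml a (λ ω) = ml a λ` (`mlt_pow`); `(λ ω)^q = k`, as `p ∣ q`. Use
`dvd_sum`. -/
def SpecSUG : Prop := ∀ (p : ℕ), p.Prime → ∀ {P : Type} [Group P] [Fintype P] (e : ℕ),
  Nat.card P = p ^ e → ∀ (a : P → ℂ) (b c : ℕ), 2 ≤ b → b ≤ c + 1 →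
  (∀ (t : ℕ) (x : P), a (x ^ (1 + p ^ c * t)) = a x) → ∀ k : Lin P, k ^ p ^ (c + 1 - b) ≠ 1 →
  p ∣ dl (p ^ (b - 1)) a k

/-- SU0. PROOF. `a(1) ≡ ∑_η ml a η = ∑_k dl q a k` (`deg` in `Deg.lean`; group the `η` by
`k = η^q`), and `p ∣ dl q a k` for `k ≠ 1` by SUG with `c = b - 1`. -/
def SpecSU0 : Prop := ∀ (p : ℕ), p.Prime → ∀ {P : Type} [Group P] [Fintype P] (e : ℕ),
  Nat.card P = p ^ e → ∀ (a : P → ℂ), IsCharacter a → ∀ b : ℕ, 2 ≤ b →
  (∀ (t : ℕ) (x : P), a (x ^ (1 + p ^ (b - 1) * t)) = a x) → ∀ n : ℕ, a 1 = n →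
  dl (p ^ (b - 1)) a 1 ≡ n [MOD p]

/-- CMU. PROOF. By MUL for `a ζ`: `dl q (a ζ) k ≡ ∑_η ml a η · dl q ζ (k η^(-q))
= ∑_ω dl q a ω · dl q ζ (k ω⁻¹)` (group by `ω = η^q`); the terms with `ω ≠ 1` are divisible by `p`
(SUG), and `dl q a 1 ≡ n` (SU0). -/
def SpecCMU : Prop := ∀ (p : ℕ), p.Prime → ∀ {P : Type} [Group P] [Fintype P] (e : ℕ),
  Nat.card P = p ^ e → ∀ (ζ a : P → ℂ), IsCharacter ζ → IsCharacter a → ∀ b : ℕ, 2 ≤ b →
  (∀ (t : ℕ) (x : P), a (x ^ (1 + p ^ (b - 1) * t)) = a x) → ∀ n : ℕ, a 1 = n → ∀ k : Lin P,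
  dl (p ^ (b - 1)) (fun x => ζ x * a x) k ≡ n * dl (p ^ (b - 1)) ζ k [MOD p]

/-! ## Induction -/

/-- SCK. Mackey.
PROOF. `Λ = {λ : λ^q = K|P}`, `F g = ∑_{λ ∈ Λ} Tg P T θ g λ`. By `sum_ind` (`Ind.lean`)
`|T| |P| dl = ∑_g |P_g| F g`, and `F` is invariant under `P × T` (`Tg_inv`); if `p ∣ F g` for all `g`
then `orb` (with `card_stab`) for `F/p` gives `p ∣ dl`. So `p ∤ F g` for some `g`. If
`P_g = Pg P T g ≠ ⊤` let `ε` be as in `exists_eps` (`Deg.lean`) for `P_g`: `sg g (λ ε) = sg g λ`, and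
`λ ↦ λ ε` permutes `Λ` (`p ∣ q`) without fixed points and has order `p`, so `p ∣ F g`, a contradiction.
So `P_g = ⊤`, and `F g = dl q (y ↦ θ(g⁻¹ y g)) (K|P)`, which is the number in question by QDL for the
isomorphism `z ↦ g z g⁻¹` of `cjP T P g` onto `P` (`K(g z g⁻¹) = K(z)`). -/
def SpecSCK : Prop := ∀ (p : ℕ), p.Prime → ∀ {X : Type} [Group X] [Fintype X] (T P : Subgroup X)
  (e : ℕ), Nat.card P = p ^ e → ∀ θ : T → ℂ, IsCharacter θ → ∀ (K : Lin X) (q : ℕ), p ∣ q →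
  ¬ p ∣ dl q (fun x : P => ind T θ (x : X)) (resL P K) →
  ∃ x : X, (∀ y ∈ P, x⁻¹ * y * x ∈ T) ∧
    ¬ p ∣ dl q (fun z : cjP T P x => θ z) (resL (cjP T P x) (resL T K))

/-- INE. PROOF. `κ = 1 + s0 p^a` is prime to `|X|`, so `x⁻¹ y^κ x ∈ T ↔ x⁻¹ y x ∈ T`, and
`θ((x⁻¹ y x)^κ) = K(x⁻¹ y x) θ(x⁻¹ y x) = K(y) θ(x⁻¹ y x)`. -/
def SpecINE : Prop := ∀ (p : ℕ), p.Prime → ∀ (L s0 : ℕ), L ≠ 0 → Pex p L s0 →
  ∀ {X : Type} [Group X] [Fintype X], Nat.card X ∣ L → ∀ (T : Subgroup X) (θ : T → ℂ) (K : Lin X)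
  (a : ℕ), 1 ≤ a → (∀ y : T, θ (y ^ (1 + s0 * p ^ a)) = ((K (y : X) : ℂˣ) : ℂ) * θ y) →
  ∀ y : X, ind T θ (y ^ (1 + s0 * p ^ a)) = ((K y : ℂˣ) : ℂ) * ind T θ y

/-! ## Clifford theory -/

/-- ISO. The statements `IC`, `Fxd`, `Good` are invariant under isomorphisms. -/
def SpecISO : Prop := ∀ (p b : ℕ) {X Y : Type} [Group X] [Finite X] [Group Y] [Finite Y]
  (_ : X ≃* Y), (IC p b X → IC p b Y) ∧ (Fxd p b X → Fxd p b Y) ∧ (Good p b X → Good p b Y)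

/-- TWS. Normalisation of the determinant.
PROOF. Let `r`, `K` be as in `IC`, `δ = det r` (`dt` in `BF/Fin.lean`), `T = ordProj[p] L`,
`n n' ≡ 1` modulo `T`, `β = δ^(-s0 n')`, `r' = β r` (`tw`), `q = p^(b-1)`. (a) `β^(p^b) = 1`: let `σ` be
an automorphism with `σ ξ = ξ^κ` for `ξ^L = 1`, `κ = 1 + s0 p^b` (`exists_aut`); `σ(r y)` is a
representation with character `σ(χ y) = χ(y^κ) = χ(y)`, so it is equivalent to `r`
(`equiv_of_trace`), and the determinants are equal: `δ^κ = δ`, `δ^(s0 p^b) = 1`. (b) `det r' = δ^(1 - s0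
n n')` satisfies `(det r')^(ordCompl L) = 1`. (c) `FX` for `r'` (`β(y)^(p^b) = 1`). (d) `β^s0 = β`
(`β^T = 1`). `K' = K β^q`, `K'^p = 1`, and `χ'(y^(1 + s0 q)) = β(y)^(1+q) χ(y^(1 + s0 q))`, while
`K'(y) χ'(y) = K(y) β(y)^(1+q) χ(y)`. (e) `dl q χ' K' = dl q χ K` by TWM. -/
def SpecTWS : Prop := ∀ (p b : ℕ), p.Prime → 2 ≤ b → ∀ {X : Type} [Group X] [Finite X],
  ICd p b X → IC p b X

/-- GLA. A Galois automorphism of `p`-power order which fixes the restriction to `H0` fixes `tr A`.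
PROOF. (This is `estep` of `BF/EStep.lean` for `e = 1`, `z = 1`, where the hypotheses on `o` are not
necessary.) `κ = 1 + s0 p^a t`, `σ ξ = ξ^κ` for `ξ^L = 1`, `s(y) = σ(A y)`. `s` and `A` have the same
trace on `H0`, so `s(h) B = B A(h)` for `h ∈ H0` (`equiv_of_trace`). For `y ∈ Y` the matrix
`A(y)⁻¹ B⁻¹ s(y) B` commutes with `A(H0)`, so `B⁻¹ s(y) B = c A(y)` with a scalar `c`, `c^L = 1`,
`c^m = det s(y)/det A(y) = det A(y)^(κ-1) = 1` (`ordCompl[p] L ∣ s0`). So the order of `c` is prime to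
`p` and divides `L`, `c^s0 = 1`, `σ c = c`. Choose `h ∈ H0` with `v = tr (A(y) A(h)) ≠ 0` (`orth`).
`σ v = tr (s(y) s(h)) = c v`, so `σ^i v = c^i v`; but `σ^(p^j)` fixes the `L`-th roots of unity for
some `j` (`κ^(p^j) ≡ 1` modulo `L`), so `c^(p^j) = 1`, hence `c = 1`. -/
def SpecGLA : Prop := ∀ (p : ℕ), p.Prime → ∀ (L s0 : ℕ), L ≠ 0 → Pex p L s0 →
  ∀ {Y : Type} [Group Y] [Finite Y], Nat.card Y ∣ L → ∀ (H0 : Subgroup Y) [H0.Normal] (m : ℕ)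
  (A : Y →* Matrix (Fin m) (Fin m) ℂ), ¬ p ∣ m → Sch (A.comp H0.subtype) →
  (∀ y, (A y).det ^ ordCompl[p] L = 1) → ∀ a t : ℕ, 1 ≤ a →
  (∀ h ∈ H0, (A (h ^ (1 + s0 * p ^ a * t))).trace = (A h).trace) →
  ∀ y, (A (y ^ (1 + s0 * p ^ a * t))).trace = (A y).trace

/-- DT2. PROOF. `σ ξ = ξ^κ`, `κ = 1 + s0 p^a`; `h ↦ σ(r' h)` and `h ↦ K(h) r'(h)` have the same trace,
so they are equivalent (`equiv_of_trace`, the second one is `Sch`); determinants: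
`det(r' h)^κ = K(h)^m det(r' h)`, so `K(h)^m = 1` (`ordCompl[p] L ∣ κ - 1`), and `K(h)^p = 1`. -/
def SpecDT2 : Prop := ∀ (p : ℕ), p.Prime → ∀ (L s0 : ℕ), L ≠ 0 → Pex p L s0 →
  ∀ {H : Type} [Group H] [Finite H], Nat.card H ∣ L → ∀ (m : ℕ)
  (r' : H →* Matrix (Fin m) (Fin m) ℂ), ¬ p ∣ m → Sch r' →
  (∀ y, (r' y).det ^ ordCompl[p] L = 1) → ∀ K : Lin H, K ^ p = 1 → ∀ a : ℕ, 1 ≤ a →
  (∀ h, (r' (h ^ (1 + s0 * p ^ a))).trace = ((K h : ℂˣ) : ℂ) * (r' h).trace) → ∀ h, K h = 1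

/-- EXT. The central extension.
PROOF. `M = ordCompl[p] L`. `Y` is the group of the pairs `(x, A)`, `x ∈ X`, `A ∈ GL_m(ℂ)`, with
`A r'(h) = r'(x h x⁻¹) A` for all `h ∈ H` and `det(A)^M = 1`, `f (x, A) = x`. For given `x` the `A` are
determined up to a scalar (`r'` is `Sch`), and the scalars `c` with `(1, c) ∈ Y` are those with
`c^(m M) = 1`: `ker f` is finite, cyclic of order `m M`, prime to `p`, central. `f` is surjective: let
`ρ(x) = Q' r(x) Q` (`cjr` in `BF/PStep.lean`); by `decomp` (`BF/EStep.lean`, `o = |X|`)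
`ρ(x) = z ⊗ X₁`, `X₁ r'(h) = r'(x h x⁻¹) X₁`, `X₁` invertible; multiply `X₁` by `c` with
`c^m = det(X₁)⁻¹`. For `y = (x, A)`: `A = c X₁`, so `ρ(x) = Z ⊗ A` with `Z = c⁻¹ z`, unique as
`A ≠ 0`; `Z(y)` is multiplicative by uniqueness. `H0 = {(h, r'(h))}`: it is contained in `Y`, since
`det r(h) = det(r'(h))^e`, so `det(r' h)^(e M) = 1` and `det(r' h)^|X| = 1`, and the greatest common
divisor of `e M` and `|X|` divides `M` (`p ∤ e M`, `|X| ∣ L`); it is normal: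
`(x, A)(h, r'(h))(x, A)⁻¹ = (x h x⁻¹, r'(x h x⁻¹))`. `Z(h) = 1` for `h ∈ H0`: `ρ(h) = 1 ⊗ r'(h)`.
`Z` is `Sch`: if `C` commutes with all `Z(y)` then `C ⊗ 1` commutes with all `ρ(x)`, so it is scalar.
Trace: `tr r(x) = tr ρ(x) = tr Z(y) tr A(y)`. -/
def SpecEXT : Prop := ∀ (p : ℕ), p.Prime → ∀ (L : ℕ), L ≠ 0 → ∀ {X : Type} [Group X] [Finite X],
  Nat.card X ∣ L → ∀ (H : Subgroup X) [H.Normal] (n e m : ℕ), n = e * m → ¬ p ∣ n →
  ∀ (r : X →* Matrix (Fin n) (Fin n) ℂ), Sch r → ∀ (r' : H →* Matrix (Fin m) (Fin m) ℂ), Sch r' →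
  ∀ (Q : Matrix (Fin n) (Fin e × Fin m) ℂ) (Q' : Matrix (Fin e × Fin m) (Fin n) ℂ), Q * Q' = 1 →
  Q' * Q = 1 → (∀ l : H, r l * Q = Q * ((1 : Matrix (Fin e) (Fin e) ℂ) ⊗ₖ r' l)) →
  (∀ y, (r y).det ^ ordCompl[p] L = 1) →
  ∃ (Y : Type) (_ : Group Y) (_ : Finite Y) (f : Y →* X) (H0 : Subgroup Y)
    (Z : Y →* Matrix (Fin e) (Fin e) ℂ) (A : Y →* Matrix (Fin m) (Fin m) ℂ),
    TD p (ordCompl[p] L) H r r' f H0 Z A

/-- LVL. The levels of `A` and `Z`.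
PROOF. `A|H0` is `Sch` (`TD.res`, `TD.map`). `tr r(f h) = e tr A(h)` for `h ∈ H0`, so
`tr A(h^κ) = tr A(h)`, `κ = 1 + s0 p^b t`, and GLA applies. For `y ∈ Y` there is `h ∈ H0` with
`tr A(y h) ≠ 0` (`orth`); `tr r(f(y h)^κ) = tr r(f(y h))` and `tr A((y h)^κ) = tr A(y h)` give
`tr Z((y h)^κ) = tr Z(y h)`, and `Z((y h)^κ) = Z(y)^κ = Z(y^κ)`, `Z(y h) = Z(y)`. -/
def SpecLVL : Prop := ∀ (p : ℕ), p.Prime → ∀ (L s0 : ℕ), L ≠ 0 → Pex p L s0 → ∀ b : ℕ, 1 ≤ b →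
  ∀ {X Y : Type} [Group X] [Finite X] [Group Y] [Finite Y], Nat.card Y ∣ L →
  ∀ (H : Subgroup X) (n e m M : ℕ), e ≠ 0 → ¬ p ∣ m → M ∣ ordCompl[p] L →
  ∀ (r : X →* Matrix (Fin n) (Fin n) ℂ) (r' : H →* Matrix (Fin m) (Fin m) ℂ), Sch r' →
  ∀ (f : Y →* X) (H0 : Subgroup Y) (Z : Y →* Matrix (Fin e) (Fin e) ℂ)
  (A : Y →* Matrix (Fin m) (Fin m) ℂ), TD p M H r r' f H0 Z A →
  FX p s0 b (fun y => (r y).trace) →
  Sch (A.comp H0.subtype) ∧ FX p s0 b (fun y => (A y).trace) ∧ FX p s0 b (fun y => (Z y).trace)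

/-- LIF. Lifting a Sylow subgroup: take a Sylow `p`-subgroup of `f⁻¹(P)`. -/
def SpecLIF : Prop := ∀ (p : ℕ), p.Prime → ∀ {X Y : Type} [Group X] [Finite X] [Group Y] [Finite Y]
  (f : Y →* X), Function.Surjective f → (Nat.card f.ker).Coprime p → ∀ P : Subgroup X,
  Nat.card P = p ^ (Nat.card X).factorization p →
  ∃ P' : Subgroup Y, Nat.card P' = p ^ (Nat.card Y).factorization p ∧ P'.map f = P ∧
    ∀ x ∈ P', f x = 1 → x = 1

/-- INJ. `f` is injective on `H0 P'`.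
PROOF. Let `h ∈ H0`, `x ∈ P'`, `f(h x) = 1`. Then `f(x) = f(h⁻¹)`, so `x = h⁻¹ c` with `c ∈ ker f` central,
of order prime to `p`. `f` is injective on `H0`, so the order of `h⁻¹` is that of `f(h⁻¹) = f(x)`, a power
of `p`; `c = h x` with `h`, `x` commuting, so `c` is a `p`-element and `c = 1`. -/
def SpecINJ : Prop := ∀ (p : ℕ), p.Prime → ∀ {X Y : Type} [Group X] [Finite X] [Group Y] [Finite Y]
  (f : Y →* X), (∀ y, f y = 1 → ∀ z, y * z = z * y) → (Nat.card f.ker).Coprime p →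
  ∀ (H0 P' : Subgroup Y) [H0.Normal], (∀ h ∈ H0, f h = 1 → h = 1) → IsPGroup p P' →
  ∀ y ∈ H0 ⊔ P', f y = 1 → y = 1

/-- EXL. A linear character of `P'` which is trivial on `H0 ∩ P'` extends to `H0 P'`, trivially on `H0`
(`(H0 ⊔ P')/H0 ≅ P'/(P' ∩ H0)`). -/
def SpecEXL : Prop := ∀ {Y : Type} [Group Y] (H0 P' : Subgroup Y) [H0.Normal] (η : Lin P'),
  (∀ x : P', (x : Y) ∈ H0 → η x = 1) → ∃ η' : Lin ↥(H0 ⊔ P'),
    (∀ h : ↥(H0 ⊔ P'), (h : Y) ∈ H0 → η' h = 1) ∧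
    ∀ (x : P') (z : ↥(H0 ⊔ P')), (z : Y) = x → η' z = η x

/-- KTR. `χ` a character of `X` with `H0` in its kernel; if `dl q (χ|P) (K|P) ≠ 0` then `K` is trivial on
`H0`, and the `η` with `ml (χ|P) η ≠ 0` are trivial on `P ∩ H0`.
PROOF. (2) For `h ∈ P ∩ H0` substitute `x h` for `x` in `∑_x χ(x) η(x)⁻¹`. (1) There is `η` with
`η^q = K|P` and `ml (χ|P) η ≠ 0`, so `K(h) = η(h)^q = 1` for `h ∈ P ∩ H0`. For `h ∈ H0` let `h'` be the
`p`-part of `h` (a power `h^s0`, `Pex p |X| s0`); `K(h) = K(h')`, because `K^p = 1` (`s0 ≡ 1` modulo `p`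
if `p` divides `|X|`; otherwise `K = 1`), and `g h' g⁻¹ ∈ P` for some `g` by Sylow's theorem,
`g h' g⁻¹ ∈ P ∩ H0`, `K(h') = K(g h' g⁻¹) = 1`. -/
def SpecKTR : Prop := ∀ (p : ℕ), p.Prime → ∀ {X : Type} [Group X] [Finite X] (H0 P : Subgroup X)
  [H0.Normal], Nat.card P = p ^ (Nat.card X).factorization p → ∀ χ : X → ℂ, IsCharacter χ →
  (∀ x, ∀ h ∈ H0, χ (x * h) = χ x) →
  (∀ K : Lin X, K ^ p = 1 → ∀ q : ℕ, dl q (fun x : P => χ x) (resL P K) ≠ 0 → ∀ h ∈ H0, K h = 1) ∧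
  (∀ η : Lin P, ml (fun x : P => χ x) η ≠ 0 → ∀ x : P, (x : X) ∈ H0 → η x = 1)

/-- CA1. Case I of the reduction.
PROOF. By PWL `tr A` has level at most `b - 1`, so `tr A(x^(1 + q t)) = tr A(x)` for `x ∈ P'`
(`x^s0 = x`), and by CMU `dl q (tr Z · tr A) K ≡ m dl q (tr Z) K`. Suppose `p ∤ dl q (tr Z) K`. By KTR
`K` is trivial on `H0`. `Z` and `K` define a representation and a linear character of `Y/H0`
(`QuotientGroup.lift`); the hypotheses of `IC p b (Y/H0)` are satisfied: the image of `P'` is a Sylow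
subgroup, and if `tr Z(y^κ) = K(y) tr Z(y)` for all `y`, then `tr Z tr A(y^κ) = K(y) tr Z(y) tr A(y)`,
a contradiction. By QDL (`P' →` its image) `p ∣ dl q (tr Z) K`. -/
def SpecCA1 : Prop := ∀ (p : ℕ), p.Prime → ∀ (L s0 : ℕ), L ≠ 0 → Pex p L s0 → ∀ b : ℕ, 2 ≤ b →
  ∀ {Y : Type} [Group Y] [Finite Y], Nat.card Y ∣ L → ∀ (H0 P' : Subgroup Y) [H0.Normal],
  Nat.card P' = p ^ (Nat.card Y).factorization p → ∀ (e m : ℕ), ¬ p ∣ e →
  ∀ (Z : Y →* Matrix (Fin e) (Fin e) ℂ) (A : Y →* Matrix (Fin m) (Fin m) ℂ), Sch Z →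
  (∀ h ∈ H0, Z h = 1) → FX p s0 b (fun y => (Z y).trace) → FX p s0 b (fun y => (A y).trace) →
  (∀ y, (A (y ^ (1 + s0 * p ^ (b - 1)))).trace = (A y).trace) → ∀ K : Lin Y, K ^ p = 1 →
  (∃ y, (Z (y ^ (1 + s0 * p ^ (b - 1)))).trace * (A (y ^ (1 + s0 * p ^ (b - 1)))).trace ≠
    ((K y : ℂˣ) : ℂ) * ((Z y).trace * (A y).trace)) → IC p b (Y ⧸ H0) →
  p ∣ dl (p ^ (b - 1)) (fun x : P' => (Z x).trace * (A x).trace) (resL P' K)

/-- CA2. Case II of the reduction.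
PROOF. By MUL `dl q (tr Z · tr A) K ≡ ∑_η ml (tr Z) η · dl q (tr A) (K η^(-q))`. Let `η` be such that
`ml (tr Z) η ≠ 0`. By KTR (2) `η` is trivial on `P' ∩ H0`; let `η'` be the extension to `W = H0 P'` of
EXL, `K' = K|W η'^(-q)`. If `(K η^(-q))^p = 1` on `P'` then `K'^p = 1`, and `IC p b W` applies to
`A|W` (it is `Sch`, since `A|H0` is) and `K'` (`P'` as a subgroup of `W`; QDL for the isomorphism): if
`tr A(y^κ) = K'(y) tr A(y)` for all `y ∈ W` then `tr A(h^κ) = K(h) tr A(h)` for `h ∈ H0`, so `K = 1` on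
`H0` by DT2, a contradiction. If `(K η^(-q))^p ≠ 1` then SUG with `c = b` applies. -/
def SpecCA2 : Prop := ∀ (p : ℕ), p.Prime → ∀ (L s0 : ℕ), L ≠ 0 → Pex p L s0 → ∀ b : ℕ, 2 ≤ b →
  ∀ {Y : Type} [Group Y] [Finite Y], Nat.card Y ∣ L → ∀ (H0 P' : Subgroup Y) [H0.Normal],
  Nat.card P' = p ^ (Nat.card Y).factorization p → ∀ (e m : ℕ), ¬ p ∣ m →
  ∀ (Z : Y →* Matrix (Fin e) (Fin e) ℂ) (A : Y →* Matrix (Fin m) (Fin m) ℂ),
  (∀ h ∈ H0, Z h = 1) → Sch (A.comp H0.subtype) → (∀ y, (A y).det ^ ordCompl[p] L = 1) →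
  FX p s0 b (fun y => (A y).trace) →
  (∃ h ∈ H0, (A (h ^ (1 + s0 * p ^ (b - 1)))).trace ≠ (A h).trace) → ∀ K : Lin Y, K ^ p = 1 →
  IC p b ↥(H0 ⊔ P') →
  p ∣ dl (p ^ (b - 1)) (fun x : P' => (Z x).trace * (A x).trace) (resL P' K)

/-- INR. The inertia step.
PROOF. `E` defines a pair (`Pr` of `BF/Cliff.lean`, `idem_factor`), so `r` is induced from a
representation `s` of `T` (`Pr.rep`), which is `Sch`, of degree `k`, `n = |X : T| k` (`Pr.sch`,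
`Pr.index`, `Pr.trace_ind`). Let `ψ = tr s`. Suppose `p ∤ dl q χ K`. First case: `FX p s0 b ψ`. By SCK
there is `x` with `x⁻¹ P x ≤ T` and `p ∤ dl q (ψ|P_x) K`, `P_x = cjP T P x`, a Sylow subgroup of `T`. By
`IC p b T`: `ψ(y^κ) = K(y) ψ(y)` on `T`, so `χ(y^κ) = K(y) χ(y)` on `X` by INE, a contradiction. Second
case: not `FX p s0 b ψ`. Let `b'` be minimal with `b ≤ b'`, `FX p s0 b' ψ` (it exists: for
`b' = v_p L` the exponents `1 + s0 p^b' t` are `≡ 1` modulo `L`); `b' > b`, and by PWL (for `b'`) there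
is `y` with `ψ(y^(1 + s0 p^(b'-1))) ≠ ψ(y)`. `q' = p^(b'-1)`. `FX p s0 b χ` implies
`χ(x^(1 + q' t)) = χ(x)` for `x ∈ P` (`b' - 1 ≥ b`), so `dl q' χ 1 ≡ n` by SU0, prime to `p`; by SCK
with `K = 1` and `IC p b' T` with `K = 1` we get a contradiction. -/
def SpecINR : Prop := ∀ (p : ℕ), p.Prime → ∀ (L s0 : ℕ), L ≠ 0 → Pex p L s0 → ∀ b : ℕ, 2 ≤ b →
  ∀ {X : Type} [Group X] [Finite X], Nat.card X ∣ L → ∀ P : Subgroup X,
  Nat.card P = p ^ (Nat.card X).factorization p → ∀ (n : ℕ)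
  (r : X →* Matrix (Fin n) (Fin n) ℂ), Sch r → ¬ p ∣ n → ∀ (T : Subgroup X)
  (E : Matrix (Fin n) (Fin n) ℂ), E * E = E → E ≠ 0 → (∀ t ∈ T, r t * E = E * r t) →
  (∀ g ∉ T, E * r g * E = 0) → (¬ p ∣ T.index → ∀ b' : ℕ, b ≤ b' → IC p b' T) →
  FX p s0 b (fun y => (r y).trace) → ∀ K : Lin X, K ^ p = 1 →
  (∃ y, (r (y ^ (1 + s0 * p ^ (b - 1)))).trace ≠ (K y : ℂ) * (r y).trace) →
  p ∣ dl (p ^ (b - 1)) (fun x : P => (r x).trace) (resL P K)

/-- RHT. The hypotheses are inherited by subgroups `T ≥ H` of index prime to `p`.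
PROOF. `H_T = H.subgroupOf T ≅ H` (ISO). `Good`: `T/H_T → X/H` is injective and its image has index
`|X : T|`; compose `f : Y → T/H_T` with it (kernel, centrality and the index of the range are as
required: `|X/H : T/H| |T/H : range|`). `low`: for a Sylow subgroup `P_T` of `T` the subgroup
`P = P_T.map` is a Sylow subgroup of `X`, and `H_T ⊔ P_T ≅ H ⊔ P` by the inclusion
(`Subgroup.map_sup`, `Subgroup.equivMapOfInjective`; ISO). -/
def SpecRHT : Prop := ∀ (p b : ℕ), p.Prime → ∀ {X : Type} [Group X] [Finite X] (H T : Subgroup X),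
  RH p b H → H ≤ T → ¬ p ∣ T.index → RH p b (H.subgroupOf T)

/-- RE1. One step of the reduction, for `b' ≥ b`.
PROOF. Let `r`, `K`, `L`, `s0`, `P` be as in `ICd p b' X`; `q = p^(b'-1)`, `κ = 1 + s0 q`. `dicho`
(`BF/Isot.lean`) for `H`. If there are `T`, `E`: `T ≠ ⊤` (`idem_trivial`), use INR (with `b'`) and the
hypothesis on `T`. Otherwise `n = e m` and EXT gives `Y`, `f`, `H0`, `Z`, `A`; `P'` from LIF. Put
`L' = L · |Y|`, `Pex p L' s0'`; on `X` we have `y^s0 = y^s0'` (PRM (6)), so the hypotheses hold for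
`L'`, `s0'`, and `ordCompl[p] L ∣ ordCompl[p] L'`. LVL. `dl` for `P` is the `dl` for `P'` of
`tr r(f x) = tr Z(x) tr A(x)` and `K ∘ f` (QDL for `f : P' ≅ P`). Case I: `tr A(h^κ) = tr A(h)` for all
`h ∈ H0`: GLA (`a = b' - 1`, `t = 1`), CA1; `IC p b' (Y/H0)` follows from `Good p b (X/H)` for the
homomorphism `Y/H0 → X/H` induced by `f` (surjective; its kernel is the image of `ker f`, because
`H0.map f = H`). Case II: CA2; `IC p b' (H0 ⊔ P')`: if `Fxd p b H` then Case II does not occur (the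
character `tr r'` of `H` has level at most `b - 1`, and `f` maps `H0` onto `H`); otherwise
`H0 ⊔ P' ≅ H ⊔ P` by `f` (INJ, `Subgroup.map_sup`; ISO). -/
def SpecRE1 : Prop := ∀ (p b : ℕ), p.Prime → 2 ≤ b → ∀ {X : Type} [Group X] [Finite X]
  (H : Subgroup X), RH p b H →
  (∀ T : Subgroup X, T ≠ ⊤ → H ≤ T → ¬ p ∣ T.index → ∀ b' : ℕ, b ≤ b' → IC p b' T) →
  ∀ b' : ℕ, b ≤ b' → ICd p b' X

/-- REC. The reduction theorem.
PROOF. Strong induction on `|X|` with RE1, RHT and TWS. -/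
def SpecREC : Prop := ∀ (p b : ℕ), p.Prime → 2 ≤ b → ∀ {X : Type} [Group X] [Finite X]
  (H : Subgroup X), RH p b H → ∀ b' : ℕ, b ≤ b' → IC p b' X

end Pool.Agent.Lib.MP_1aae89_al.W3
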