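import Pool.Agent.Lib.MP_1aae89_al.W3.DefsC
import Pool.Agent.Lib.MP_1aae89_al.W3.SpecB

/-!
# Specifications, part C: good factor groups, the criterion, the chain theorem, Q1

THEOREM W3. Let `p` be a prime, `M ≤ G` finite groups, `p ∤ |G : M|`, `P` a Sylow `p`-subgroup of `M`,
`ψ ∈ Irr(M)` of degree prime to `p`, `b = lev ψ ≥ 2`. Let `K 0 ≤ K 1 ≤ … ≤ K m = M`, `K i` normal in
`K (i+1)` and normalized by `P`; `K 0 = 1`, or all irreducible characters of `K 0` of degree prime to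
`p` have level less than `b`; and `Stp p b P (K i) (K (i+1))` for `i < m`. Then `lev (ψ^G) = b`.

PROOF. (CHN) `IC p b' (K i P)` for all `b' ≥ b`, by induction on `i`, by REC for the normal subgroup
`K i` of `K (i+1) P`: the factor group `Z = K (i+1) P / K i` is `Good` (GQU): if `K (i+1)/K i` is a
`p`-group then `Z` is a `p`-group (GPG); if it has no element of order `p^b`, use REC for it and the
`p`-group `Z / (K (i+1)/K i)` (GBD); otherwise `Z` has an abelian Sylow `p`-subgroup and satisfies `Crt`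
(CRA, CRC, CRM), and the main inequality FN2 applies to its central extensions (GCR). (Q1C) If
`lev (ψ^G) < b` then `dl q (ψ^G) 1 ≡ ψ^G(1)` is prime to `p`, and so is `dl q ψ 1` for some Sylow
subgroup by Mackey's formula, which contradicts `IC p b M` for `K = 1`.
-/

set_option autoImplicit false

namespace Pool.Agent.Lib.MP_1aae89_al.W3

open Pool.Agent.Lib.MP_1aae89_al Pool.Agent.Lib.MP_1aae89_al.BF Finset
open Pool.Agent.Lib.MP_1aae89_al.W (GC LD nR)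
open Pool.Agent.Lib.MP1aae89 (Pex)

/-! ## Good groups -/

/-- GPG. `p`-groups are good.
PROOF. Let `f : Y → Z` be as in `Good`; it is surjective (the index of the range is a power of `p`). Let
`P` be a Sylow `p`-subgroup of `Y`; `P ∩ ker f = 1`, so `f(P) = Z` (orders) and `Y = (ker f) P`. Let `r`,
`K` be as in `IC p b' Y`, `q = p^(b'-1)`. `ker f` is central, so `r(ker f)` consists of scalars and `r|P`
is `Sch`; as `p ∤ n` we get `n = 1` (`deg` in `Deg.lean`: `∑_η ml η ≡ n`, so some `ml η ≠ 0`, and ORT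
gives `tr r|P = η`). So `δ(y) = tr r(y)` is multiplicative. Suppose `p ∤ dl q (δ|P) (K|P)`; then
`η^q = K|P` for some `η` with `ml (δ|P) η ≠ 0`, so `δ|P = η` (ORT), `δ^q = K` on `P`. For `y ∈ Y`:
`δ(y^(1 + s0 q)) = δ(y) δ(y^s0)^q`, `y^s0` is a `p`-element, conjugate into `P`, so
`δ(y^s0)^q = K(y^s0) = K(y)` (`K^p = 1`; `s0 ≡ 1` modulo `p` if `p ∣ L`, otherwise `K = 1`). This
contradicts the hypothesis of `IC`. -/
def SpecGPG : Prop := ∀ (p b : ℕ), p.Prime → 2 ≤ b → ∀ {Z : Type} [Group Z] [Finite Z] (e : ℕ),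
  Nat.card Z = p ^ e → Good p b Z

/-- GBD. `F` normal in `Z`, without elements of order `p^b`, `Z / F` a `p`-group: `Z` is good.
PROOF. Let `f : Y → Z` be as in `Good`, `H = F.comap f`, normal. REC for `H`: `Y/H` is a `p`-group
(every `y` has a power `y^(p^j) ∈ H`), so it is good by GPG. `Fxd p b H`: let `h ∈ H`, `g = h^s0`, a
`p`-element; `f(g) ∈ F` is a `p`-element, so `f(g)^(p^(b-1)) = 1` (descend from `f(g)^(p^j) = 1`,
`j ≥ b`, to `j - 1`, by the hypothesis for `f(g)^(p^(j-b))`), so `g^(p^(b-1)) ∈ ker f` is a `p`-element,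
hence `1`; so `h^(1 + s0 p^(b-1) t) = h`. -/
def SpecGBD : Prop := ∀ (p b : ℕ), p.Prime → 2 ≤ b → ∀ {Z : Type} [Group Z] [Finite Z]
  (F : Subgroup Z) [F.Normal], (∀ x ∈ F, x ^ p ^ b = 1 → x ^ p ^ (b - 1) = 1) →
  (∀ z : Z, ∃ j : ℕ, z ^ p ^ j ∈ F) → Good p b Z

/-- CRL. Lifting the criterion: `f : Y → X` injective on `P`.
PROOF. Let `A` be as in `Crt` for `f(P)`; take the preimages in `P`. If `g` normalizes `P` then `f g`
normalizes `f(P)`, so `Rel u v` implies `Rel (f u) (f v)`. `nR` is the same. -/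
def SpecCRL : Prop := ∀ (p b : ℕ) {X Y : Type} [Group X] [Finite X] [Group Y] [Finite Y]
  (f : Y →* X) (P : Subgroup Y), (∀ x ∈ P, f x = 1 → x = 1) → Crt p b (P.map f) → Crt p b P

/-- CRJ. The criterion for a conjugate subgroup. -/
def SpecCRJ : Prop := ∀ (p b : ℕ) {X : Type} [Group X] [Finite X] (P P' : Subgroup X) (g : X),
  (∀ x, x ∈ P' ↔ g⁻¹ * x * g ∈ P) → Crt p b P → Crt p b P'

/-- GCR. Groups with an abelian Sylow subgroup which satisfies the criterion are good.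
PROOF. Let `f : Y → Z` be as in `Good`, `P'` a Sylow `p`-subgroup of `Y`. `f` is injective on `P'`, and
`f(P')` is a Sylow `p`-subgroup of `Z` (orders), conjugate to `P`, so it satisfies `Crt` (CRJ), and `P'`
satisfies it by CRL; `P' ≅ f(P')` is abelian. FN2. -/
def SpecGCR : Prop := ∀ (p b : ℕ), p.Prime → 2 ≤ b → ∀ {Z : Type} [Group Z] [Finite Z]
  (P : Subgroup Z), Nat.card P = p ^ (Nat.card Z).factorization p →
  (∀ x ∈ P, ∀ y ∈ P, x * y = y * x) → (∀ b' : ℕ, b ≤ b' → Crt p b' P) → Good p b Z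

/-! ## The criterion -/

/-- CRM. `Crt p b P` implies `Crt p b' P` for `b' ≥ b`.
PROOF. It is enough to go from `b` to `b + 1`. `P_b = {x ∈ P : x^(p^(b-1)) ∈ P^(p^b)}`, a subgroup of the
abelian group `P`, `P_b ≤ P_(b+1)`; `r_j = |P^(p^j)| = nR P (p^j)`, `|P : P_b| = r_(b-1)/r_b`,
`|P_(b+1) : P_b| = w`, `w r_b² = r_(b-1) r_(b+1)`. Let `A` be as in `Crt p b`, and `A' ⊆ A` a set of
representatives for the restriction of `Rel (b+1)` to `A` (an equivalence relation, REL). A class of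
`Rel (b+1)` contains at most `w` elements of `A`: let `u₁` be one of them; for each `u` in the class
there is `g_u` normalizing `P` with `g_u u g_u⁻¹ ∈ u₁ P_(b+1)`, and `u ↦ u₁⁻¹ g_u u g_u⁻¹ P_b ∈
P_(b+1)/P_b` is injective, because `g_u u g_u⁻¹ ∈ g_v v g_v⁻¹ P_b` implies `Rel b u v`. So
`|A| ≤ w |A'|`, and `r_(b-1) < |A| p r_b ≤ w |A'| p r_b`; multiply by `r_b`:
`r_(b-1) r_b < |A'| p r_(b-1) r_(b+1)`, `r_b < |A'| p r_(b+1)`. -/
def SpecCRM : Prop := ∀ (p b : ℕ), p.Prime → 1 ≤ b → ∀ {X : Type} [Group X] [Finite X]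
  (P : Subgroup X), IsPGroup p P → (∀ x ∈ P, ∀ y ∈ P, x * y = y * x) → Crt p b P →
  ∀ b' : ℕ, b ≤ b' → Crt p b' P

/-- CRA. The criterion if `P ∩ F` is cyclic, `X = F P`, `F` normal.
PROOF. `P_b` as in CRM, `N = |P : P_b| = r_(b-1)/r_b`, `Q = P ∩ F = ⟨x₀⟩`. If `g` normalizes `P`,
`g = f x` with `f ∈ F`, `x ∈ P`, then `g u g⁻¹ = f u f⁻¹ ∈ u Q` for `u ∈ P` (`P` is abelian, and
`f u f⁻¹ u⁻¹ ∈ F ∩ P`). So `Rel u v` implies `u ∈ v Q P_b`. If `x₀ ∈ P_b` take for `A` a set of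
representatives of `P/P_b`: `|A| = N`. If `x₀ ∉ P_b` then `|Q P_b : P_b| = p` (`x^p ∈ P_b` for all
`x ∈ P`); take for `A` the elements `1`, `x₀` and representatives of the nontrivial cosets of `Q P_b`
in `P`: `|A| = N/p + 1`; `1` and `x₀` are not related, because `g x₀ g⁻¹ ∈ P_b` implies `x₀ ∈ P_b`
(`g` normalizes `P`, so it normalizes `P_b`). -/
def SpecCRA : Prop := ∀ (p b : ℕ), p.Prime → 1 ≤ b → ∀ {X : Type} [Group X] [Finite X]
  (P F : Subgroup X) [F.Normal], IsPGroup p P → (∀ x ∈ P, ∀ y ∈ P, x * y = y * x) → F ⊔ P = ⊤ →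
  (∃ x₀ ∈ P ⊓ F, ∀ y ∈ P ⊓ F, ∃ j : ℕ, y = x₀ ^ j) → Crt p b P

/-- CRC. The criterion if the automizer of `Q = P ∩ F` in `F` has order less than `p`, `X = F P`.
PROOF. As in CRA, `Rel` is given by the action of `Γ = {g ∈ F : g normalizes P}` (`g u g⁻¹ = f u f⁻¹`,
and `f = g x⁻¹` normalizes `P`). `Γ` normalizes `Q`. Let `Γ₀ = {g ∈ Γ : g centralizes Q}`. For
`g ∈ Γ₀`, `u ∈ P`: `g u g⁻¹ = u δ` with `δ ∈ Q`, so `g^k u g^(-k) = u δ^k` and `g^(|P|)` centralizes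
`P`. `P` is a Sylow subgroup contained in `C(P)`, so `N(P)/C(P)` has order prime to `p`, and `g`
centralizes `P`. So the elements `g u g⁻¹`, `g ∈ Γ`, for fixed `u` are at most `|Γ : Γ₀|` in number, and
`|Γ : Γ₀| ≤ |N_F(Q) : C_F(Q)| ≤ p - 1`. Let `A ⊆ P` be a set of representatives for `Rel`
(an equivalence relation on `P`). Each class is the union of at most `p - 1` cosets of `P_b`, so
`N = |P : P_b| ≤ (p - 1) |A| < p |A|`. -/
def SpecCRC : Prop := ∀ (p b : ℕ), p.Prime → 1 ≤ b → ∀ {X : Type} [Group X] [Finite X]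
  (P F : Subgroup X) [F.Normal], Nat.card P = p ^ (Nat.card X).factorization p →
  (∀ x ∈ P, ∀ y ∈ P, x * y = y * x) → F ⊔ P = ⊤ →
  Nat.card {g : X // g ∈ F ∧ ∀ x ∈ P ⊓ F, g * x * g⁻¹ ∈ P ⊓ F} <
    p * Nat.card {g : X // g ∈ F ∧ ∀ x ∈ P ⊓ F, g * x * g⁻¹ = x} → Crt p b P

/-! ## The chain theorem -/

/-- GQU. The factor groups are good.
PROOF. `Z = X/H`, `F' = F/H`, `P' = P H/H`, a Sylow subgroup of `Z`, `F' ⊔ P' = ⊤`. (1) `Z/F'` is a
`p`-group, as it is generated by the image of `P`; if `F/H` is a `p`-group, so is `Z`: GPG. (2) GBD for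
`F'`. (3) `P'` is abelian; CRA for `P'`, `F'` in `Z` (`P' ∩ F'` is the image of `P ∩ F`, because
`H ≤ F`), or CRC (the sets of `Stq` are the preimages of the sets of CRC, so their orders are `|H|`
times as large), or the hypothesis, and CRM give `Crt p b' P'` for all `b' ≥ b`; GCR. -/
def SpecGQU : Prop := ∀ (p b : ℕ), p.Prime → 2 ≤ b → ∀ {X : Type} [Group X] [Finite X]
  (P H F : Subgroup X) [H.Normal] [F.Normal], H ≤ F → F ⊔ P = ⊤ →
  Nat.card P = p ^ (Nat.card X).factorization p → Stq p b P H F → Good p b (X ⧸ H)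

/-- STE. One step of the chain.
PROOF. `X = K' ⊔ P` (as a type), `H = K.subgroupOf X`, `F = K'.subgroupOf X`, `P_X = P.subgroupOf X`. `H`
and `F` are normal in `X`. REC for `H`: `Good p b (X/H)` by GQU (`Stp` for `M` gives `Stq` for `X`); for
a Sylow subgroup `P₁` of `X` there is `g ∈ X` with `P₁ = g P_X g⁻¹` and
`H ⊔ P₁ = g (H ⊔ P_X) g⁻¹ ≅ H ⊔ P_X ≅ K ⊔ P` (ISO). -/
def SpecSTE : Prop := ∀ (p b : ℕ), p.Prime → 2 ≤ b → ∀ {M : Type} [Group M] [Finite M]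
  (P : Subgroup M), Nat.card P = p ^ (Nat.card M).factorization p → ∀ K K' : Subgroup M, K ≤ K' →
  (∀ g ∈ K', ∀ x ∈ K, g * x * g⁻¹ ∈ K) → (∀ g ∈ P, ∀ x ∈ K, g * x * g⁻¹ ∈ K) →
  (∀ g ∈ P, ∀ x ∈ K', g * x * g⁻¹ ∈ K') → Stp p b P K K' →
  (∀ b' : ℕ, b ≤ b' → IC p b' ↥(K ⊔ P)) → ∀ b' : ℕ, b ≤ b' → IC p b' ↥(K' ⊔ P)

/-- BAS. The beginning of the chain.
PROOF. `X = K ⊔ P`, `H = K.subgroupOf X` is normal, `Fxd p b H` by ISO, `X/H` is a `p`-group, GPG,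
REC. -/
def SpecBAS : Prop := ∀ (p b : ℕ), p.Prime → 2 ≤ b → ∀ {M : Type} [Group M] [Finite M]
  (P : Subgroup M), Nat.card P = p ^ (Nat.card M).factorization p → ∀ K : Subgroup M,
  (∀ g ∈ P, ∀ x ∈ K, g * x * g⁻¹ ∈ K) → Fxd p b K → ∀ b' : ℕ, b ≤ b' → IC p b' ↥(K ⊔ P)

/-- CHN. The chain. PROOF. Induction on `i` with BAS and STE; `K m ⊔ P = ⊤ ≅ M` (ISO). -/
def SpecCHN : Prop := ∀ (p b : ℕ), p.Prime → 2 ≤ b → ∀ {M : Type} [Group M] [Finite M]
  (P : Subgroup M), Nat.card P = p ^ (Nat.card M).factorization p → ∀ (m : ℕ) (K : ℕ → Subgroup M),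
  (∀ i < m, K i ≤ K (i + 1)) → (∀ i < m, ∀ g ∈ K (i + 1), ∀ x ∈ K i, g * x * g⁻¹ ∈ K i) →
  (∀ i ≤ m, ∀ g ∈ P, ∀ x ∈ K i, g * x * g⁻¹ ∈ K i) → K m = ⊤ → Fxd p b (K 0) →
  (∀ i < m, Stp p b P (K i) (K (i + 1))) → IC p b M

/-! ## Levels and Q1 -/

/-- IDC. The induced function of a character is a character.
PROOF. `ρ : H → GL_n(ℂ)`, `t : G/H → G` representatives (`Quotient.out`); the matrices
`R(g)_{(i,a),(j,c)} = ρ(t_i⁻¹ g t_j)_{ac}` if `t_i⁻¹ g t_j ∈ H` and `0` otherwise, indexed by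
`(G/H) × Fin n` (reindex to `Fin N`): `R(g g') = R(g) R(g')`, since `t_j⁻¹ g' t_k ∈ H` for exactly one
`j`; the trace is `∑_i θ°(t_i⁻¹ g t_i) = |H|⁻¹ ∑_x θ°(x⁻¹ g x)`. -/
def SpecIDC : Prop := ∀ {G : Type} [Group G] [Fintype G] (H : Subgroup G) (θ : H → ℂ),
  IsCharacter θ → IsCharacter (ind H θ)

/-- LVF. Levels and `FX`.
PROOF. (1) Let `σ` be an automorphism with `σ ξ = ξ^κ` for `ξ^L = 1`, `κ = 1 + s0 p^a t`, prime to `L`
(`exists_aut`). `σ(χ y) = χ(y^κ)` (`aga_gal` in `W/AGA.lean` or `gal_trace`). The values of `χ` are in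
`ℚ_c`, `c = conductor χ` divides `L`, and `κ ≡ 1` modulo `c` (`s0 ≡ 0` modulo `ordCompl[p] L`; the
`p`-part of `c` divides `p^a`); so `σ` fixes them (`fixed` in `Gal.lean`, `conductor_eq` in
`BF/Bridge.lean`). (2) `W.SpecLEV` (`specLEV specLTE`) with `c = b`, `t = 1`. -/
def SpecLVF : Prop := ∀ (p : ℕ), p.Prime → ∀ (L s0 : ℕ), L ≠ 0 → Pex p L s0 →
  ∀ {X : Type} [Group X] [Fintype X], Nat.card X ∣ L → ∀ χ : X → ℂ, IsCharacter χ →
  (∀ a : ℕ, 1 ≤ a → lev p χ ≤ a → FX p s0 a χ) ∧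
  (∀ b : ℕ, 2 ≤ b → lev p χ = b → ∃ y, χ (y ^ (1 + s0 * p ^ (b - 1))) ≠ χ y)

/-- Q1C. Q1 from `IC p b M`, for any Sylow subgroup `P` of `G`.
PROOF. `ψ = tr r`, `F = ψ^G`, a character of `G` (IDC). `≤`: `W.SpecLRS` (`W/LRS.lean`). Suppose that the
level of `F|P` is less than `b`. By LVF (1) for the group `P`, `a = b - 1`: `F(x^(1 + q t)) = F(x)` for
`x ∈ P`, `q = p^(b-1)` (`x^s0 = x`), so by SU0 `dl q (F|P) 1 ≡ F(1) = |G : M| n`, prime to `p`. By SCK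
with `K = 1` there is `x` with `x⁻¹ P x ≤ M` and `p ∤ dl q (ψ|P₁) 1`, `P₁ = cjP M P x`, a Sylow subgroup of
`M` (`p ∤ |G : M|`). But `IC p b M` with `K = 1` and LVF give `p ∣ dl q (ψ|P₁) 1`. -/
def SpecQ1C : Prop := ∀ (p : ℕ), p.Prime → ∀ {G : Type} [Group G] [Fintype G] (M : Subgroup G),
  ¬ p ∣ M.index → ∀ (n : ℕ) (r : M →* Matrix (Fin n) (Fin n) ℂ), Sch r → ¬ p ∣ n → ∀ b : ℕ,
  2 ≤ b → lev p (fun y => (r y).trace) = b → IC p b M → ∀ P : Subgroup G,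
  Nat.card P = p ^ (Nat.card G).factorization p →
  lev p (fun x : P => ind M (fun y => (r y).trace) (x : G)) = b ∧
    lev p (ind M (fun y => (r y).trace)) = b

end Pool.Agent.Lib.MP_1aae89_al.W3
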