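import Pool.Agent.Lib.MP_1aae89_al.W.All
import Pool.Agent.Lib.MP_1aae89_al.Main

/-!
# Definitions for the theorem on series with small factors (MP_1aae89_al, Q1)
-/

set_option autoImplicit false

namespace Pool.Agent.Lib.MP_1aae89_al.W3

open Pool.Agent.Lib.MP_1aae89_al Pool.Agent.Lib.MP_1aae89_al.BF Finset
open Pool.Agent.Lib.MP1aae89 (Pex)

/-- `χ` is fixed by the Galois automorphisms with exponents `1 + s0 p^a t` (level at most `a`) -/
def FX (p s0 a : ℕ) {X : Type} [Group X] (χ : X → ℂ) : Prop :=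
  ∀ (t : ℕ) (y : X), χ (y ^ (1 + s0 * p ^ a * t)) = χ y

/-- the multiplicity of the linear character `μ` in `χ` (`mlt` of `Lin.lean`) -/
noncomputable def ml {P : Type} [Group P] [Finite P] (χ : P → ℂ) (μ : Lin P) : ℕ :=
  @mlt P _ (Fintype.ofFinite P) χ μ

open Classical in
/-- the number of linear constituents `η` of `χ` with `η ^ q = k`, with multiplicities -/
noncomputable def dl {P : Type} [Group P] [Finite P] (q : ℕ) (χ : P → ℂ) (k : Lin P) : ℕ :=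
  ∑ η ∈ univ.filter (fun η : Lin P => η ^ q = k), ml χ η

/-- the inductive statement -/
def IC (p b : ℕ) (X : Type) [Group X] [Finite X] : Prop :=
  ∀ (L s0 : ℕ), L ≠ 0 → Nat.card X ∣ L → Pex p L s0 →
  ∀ P : Subgroup X, Nat.card P = p ^ (Nat.card X).factorization p →
  ∀ (n : ℕ) (r : X →* Matrix (Fin n) (Fin n) ℂ), Sch r → ¬ p ∣ n →
  FX p s0 b (fun y => (r y).trace) → ∀ K : Lin X, K ^ p = 1 →
  (∃ y, (r (y ^ (1 + s0 * p ^ (b - 1)))).trace ≠ (K y : ℂ) * (r y).trace) →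
  p ∣ dl (p ^ (b - 1)) (fun x : P => (r x).trace) (resL P K)

/-- the inductive statement for representations whose determinant has order prime to `p` -/
def ICd (p b : ℕ) (X : Type) [Group X] [Finite X] : Prop :=
  ∀ (L s0 : ℕ), L ≠ 0 → Nat.card X ∣ L → Pex p L s0 →
  ∀ P : Subgroup X, Nat.card P = p ^ (Nat.card X).factorization p →
  ∀ (n : ℕ) (r : X →* Matrix (Fin n) (Fin n) ℂ), Sch r → ¬ p ∣ n →
  (∀ y, (r y).det ^ ordCompl[p] L = 1) →
  FX p s0 b (fun y => (r y).trace) → ∀ K : Lin X, K ^ p = 1 →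
  (∃ y, (r (y ^ (1 + s0 * p ^ (b - 1)))).trace ≠ (K y : ℂ) * (r y).trace) →
  p ∣ dl (p ^ (b - 1)) (fun x : P => (r x).trace) (resL P K)

/-- all irreducible characters of `H` of degree prime to `p` have level less than `b` -/
def Fxd (p b : ℕ) (H : Type) [Group H] [Finite H] : Prop :=
  ∀ (L s0 : ℕ), L ≠ 0 → Nat.card H ∣ L → Pex p L s0 →
  ∀ (n : ℕ) (r : H →* Matrix (Fin n) (Fin n) ℂ), Sch r → ¬ p ∣ n →
  FX p s0 (b - 1) (fun y => (r y).trace)

/-- the inductive statement for all central `p'`-extensions of subgroups of `p'`-index -/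
def Good (p b : ℕ) (Z : Type) [Group Z] [Finite Z] : Prop :=
  ∀ (Y : Type) [Group Y] [Finite Y] (f : Y →* Z), (∀ y, f y = 1 → ∀ z, y * z = z * y) →
  (Nat.card f.ker).Coprime p → ¬ p ∣ f.range.index → ∀ b' : ℕ, b ≤ b' → IC p b' Y

/-- `u`, `v ∈ P` are in the same orbit modulo `{x ∈ P : x^(p^(b-1)) ∈ P^(p^b)}` under the elements
of `X` which normalize `P` -/
def Rel (p b : ℕ) {X : Type} [Group X] (P : Subgroup X) (u v : X) : Prop :=
  ∃ g : X, (∀ x ∈ P, g * x * g⁻¹ ∈ P) ∧ ∃ w ∈ P,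
    (g * u * g⁻¹) ^ p ^ (b - 1) = v ^ p ^ (b - 1) * w ^ p ^ b

/-- the criterion: the average size of an orbit is less than `p` -/
def Crt (p b : ℕ) {X : Type} [Group X] (P : Subgroup X) : Prop :=
  ∃ A : Finset X, (∀ u ∈ A, u ∈ P) ∧ (∀ u ∈ A, ∀ v ∈ A, Rel p b P u v → u = v) ∧
    W.nR P (p ^ (b - 1)) < A.card * p * W.nR P (p ^ b)

/-- the average `(1/p) ∑_i K(y)^(-i) χ(y^(1 + s0 q i))` of the conjugates -/
noncomputable def avK (p s0 b : ℕ) {X : Type} [Group X] (χ : X → ℂ) (K : Lin X) (y : X) : ℂ :=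
  (p : ℂ)⁻¹ * ∑ i ∈ range p, (((K y)⁻¹ : ℂˣ) : ℂ) ^ i * χ (y ^ (1 + s0 * p ^ (b - 1) * i))

/-- the section of `u ∈ P` -/
def Sec (p s0 b : ℕ) {X : Type} [Group X] (P : Subgroup X) (u y : X) : Prop :=
  ∃ g : X, g * y ^ s0 * g⁻¹ ∈ P ∧ ∃ w ∈ P,
    (g * y ^ s0 * g⁻¹) ^ p ^ (b - 1) = u ^ p ^ (b - 1) * w ^ p ^ b

/-- the number `|R / R^p|`, `R` the `q`-th powers -/
noncomputable def NN (p b : ℕ) {X : Type} [Group X] (P : Subgroup X) : ℂ :=
  ((W.nR P (p ^ (b - 1)) : ℕ) : ℂ) / ((W.nR P (p ^ b) : ℕ) : ℂ)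

open Classical in
/-- the contribution of the section of `u` to the norm of `avK` -/
noncomputable def BB (p s0 b : ℕ) {X : Type} [Group X] [Fintype X] (P : Subgroup X) (χ : X → ℂ)
    (K : Lin X) (u : X) : ℂ :=
  NN p b P * ((Fintype.card X : ℂ)⁻¹ *
    ∑ y : X, if Sec p s0 b P u y then avK p s0 b χ K y * avK p s0 b χ K y⁻¹ else 0)

/-- the hypotheses of the main inequality -/
structure Hy (p L s0 b : ℕ) {X : Type} [Group X] [Finite X] (P : Subgroup X) (χ : X → ℂ)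
    (K : Lin X) : Prop where
  pp : p.Prime
  hb : 2 ≤ b
  hL : L ≠ 0
  card : Nat.card X ∣ L
  pex : Pex p L s0
  syl : Nat.card P = p ^ (Nat.card X).factorization p
  comm : ∀ x ∈ P, ∀ y ∈ P, x * y = y * x
  char : IsCharacter χ
  fx : FX p s0 b χ
  kp : K ^ p = 1
  kq : ∀ x ∈ P, x ^ p ^ (b - 1) = 1 → K x = 1

open Classical in
/-- the characters of `P` which are trivial on `{x : x^(p^(b-1)) ∈ P^(p^b)}` -/
noncomputable def An (p b : ℕ) (P : Type) [Group P] [Finite P] : Finset (Lin P) :=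
  univ.filter fun α => ∀ x : P, (∃ v : P, x ^ p ^ (b - 1) = v ^ p ^ b) → α x = 1

/-- `p · avK` on a commutative `p`-group -/
noncomputable def am (p b : ℕ) {P : Type} [CommGroup P] {Q : Subgroup P} (φ : Q → ℂ) (k : Lin P)
    (w : Q) : ℂ :=
  ∑ i ∈ range p, (((k w)⁻¹ : ℂˣ) : ℂ) ^ i * φ (w ^ (1 + p ^ (b - 1) * i))

/-- the conjugate of a subgroup of `X` inside a subgroup `T` -/
def cjP {X : Type} [Group X] (T P : Subgroup X) (x : X) : Subgroup T :=
  P.comap ((MulAut.conj x).toMonoidHom.comp T.subtype)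

/-- the data of a representation of `X` which is isotypic on the normal subgroup `H`, on a central
extension `f : Y → X`: `r ∘ f ≅ Z ⊗ A` -/
structure TD (p M : ℕ) {X : Type} [Group X] [Finite X] (H : Subgroup X) {n : ℕ}
    (r : X →* Matrix (Fin n) (Fin n) ℂ) {e m : ℕ} (r' : H →* Matrix (Fin m) (Fin m) ℂ)
    {Y : Type} [Group Y] [Finite Y] (f : Y →* X) (H0 : Subgroup Y)
    (Z : Y →* Matrix (Fin e) (Fin e) ℂ) (A : Y →* Matrix (Fin m) (Fin m) ℂ) : Prop where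
  surj : Function.Surjective f
  cen : ∀ y, f y = 1 → ∀ z, y * z = z * y
  ker : (Nat.card f.ker).Coprime p
  norm : H0.Normal
  map : H0.map f = H
  inj : ∀ h ∈ H0, f h = 1 → h = 1
  tr : ∀ y, (r (f y)).trace = (Z y).trace * (A y).trace
  res : ∀ h ∈ H0, ∀ hf : f h ∈ H, A h = r' ⟨f h, hf⟩
  z1 : ∀ h ∈ H0, Z h = 1
  zs : Sch Z
  det : ∀ y, (A y).det ^ M = 1

end Pool.Agent.Lib.MP_1aae89_al.W3
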