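import Pool.Agent.Lib.MP_1aae89_al.W3.Defs

/-!
# Definitions, part B, and elementary facts on `ml`
-/

set_option autoImplicit false

namespace Pool.Agent.Lib.MP_1aae89_al.W3

open Pool.Agent.Lib.MP_1aae89_al Pool.Agent.Lib.MP_1aae89_al.BF Finset
open Pool.Agent.Lib.MP1aae89 (Pex)

theorem ml_eq {P : Type} [Group P] [Fintype P] (χ : P → ℂ) (μ : Lin P) : ml χ μ = mlt χ μ := by
  unfold ml
  congr 1
  exact Subsingleton.elim _ _

theorem ml_spec {P : Type} [Group P] [Fintype P] {χ : P → ℂ} (h : IsCharacter χ) (μ : Lin P) :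
    ((ml χ μ : ℕ) : ℂ) = (Fintype.card P : ℂ)⁻¹ * ∑ x, χ x * (((μ x)⁻¹ : ℂˣ) : ℂ) := by
  rw [ml_eq]
  exact mlt_spec h μ

/-- the hypotheses of the reduction theorem: a normal subgroup `H` of `X` such that `H P` (or `H`)
and `X / H` are under control -/
structure RH (p b : ℕ) {X : Type} [Group X] [Finite X] (H : Subgroup X) : Prop where
  norm : H.Normal
  low : Fxd p b H ∨ ∀ P : Subgroup X, Nat.card P = p ^ (Nat.card X).factorization p →
    ∀ b' : ℕ, b ≤ b' → IC p b' ↥(H ⊔ P)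
  good : ∀ [H.Normal], Good p b (X ⧸ H)

end Pool.Agent.Lib.MP_1aae89_al.W3
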