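import Pool.Agent.Lib.MP_1aae89_al.W3.DefsB

/-!
# Definitions, part C: the conditions on the factors of a series
-/

set_option autoImplicit false

namespace Pool.Agent.Lib.MP_1aae89_al.W3

open Pool.Agent.Lib.MP_1aae89_al Pool.Agent.Lib.MP_1aae89_al.BF Finset
open Pool.Agent.Lib.MP1aae89 (Pex)

/-- the conditions on a factor `F / H`, `H ≤ F` normal subgroups of `X = F P` -/
def Stq (p b : ℕ) {X : Type} [Group X] (P H F : Subgroup X) [H.Normal] : Prop :=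
  (∀ x ∈ F, ∃ j : ℕ, x ^ p ^ j ∈ H) ∨
  (∀ x ∈ F, x ^ p ^ b ∈ H → x ^ p ^ (b - 1) ∈ H) ∨
  ((∀ x ∈ P, ∀ y ∈ P, x * y * x⁻¹ * y⁻¹ ∈ H) ∧
    ((∃ x₀ ∈ P ⊓ F, ∀ y ∈ P ⊓ F, ∃ j : ℕ, y * (x₀ ^ j)⁻¹ ∈ H) ∨
      Nat.card {g : X // g ∈ F ∧ ∀ x ∈ P ⊓ F, ∃ y ∈ P ⊓ F, g * x * g⁻¹ * y⁻¹ ∈ H} <
        p * Nat.card {g : X // g ∈ F ∧ ∀ x ∈ P ⊓ F, g * x * g⁻¹ * x⁻¹ ∈ H} ∨
      Crt p b (P.map (QuotientGroup.mk' H))))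

/-- the conditions on a factor `K' / K` of a series in the group `M`, `P` a Sylow `p`-subgroup of `M`:
it is a `p`-group, or it has no element of order `p^b`, or `P` is abelian modulo `K` and, with
`Q = (P ∩ K') K / K`, either `Q` is cyclic, or the automizer of `Q` in `K' / K` has order less than
`p`, or `K' P / K` satisfies the criterion `Crt` -/
def Stp (p b : ℕ) {M : Type} [Group M] (P K K' : Subgroup M) : Prop :=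
  (∀ x ∈ K', ∃ j : ℕ, x ^ p ^ j ∈ K) ∨
  (∀ x ∈ K', x ^ p ^ b ∈ K → x ^ p ^ (b - 1) ∈ K) ∨
  ((∀ x ∈ P, ∀ y ∈ P, x * y * x⁻¹ * y⁻¹ ∈ K) ∧
    ((∃ x₀ ∈ P ⊓ K', ∀ y ∈ P ⊓ K', ∃ j : ℕ, y * (x₀ ^ j)⁻¹ ∈ K) ∨
      Nat.card {g : M // g ∈ K' ∧ ∀ x ∈ P ⊓ K', ∃ y ∈ P ⊓ K', g * x * g⁻¹ * y⁻¹ ∈ K} <
        p * Nat.card {g : M // g ∈ K' ∧ ∀ x ∈ P ⊓ K', g * x * g⁻¹ * x⁻¹ ∈ K} ∨
      ∀ [_hN : (K.subgroupOf (K' ⊔ P)).Normal], Crt p b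
        ((P.subgroupOf (K' ⊔ P)).map (QuotientGroup.mk' (K.subgroupOf (K' ⊔ P))))))

end Pool.Agent.Lib.MP_1aae89_al.W3
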